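import Pool.Agent.HAF3.EulF
import Pool.Agent.HAF2.Conv

/-!
# The Euler part in terms of the definitions of the statements
-/

namespace Pool.Agent.HAF3

open Pool.Agent.HaefligerClasses (QuotientManifold IsForm HaefligerStructure curvature
  torusElement)
open Pool.Agent.HAF2

theorem survives_euler (q e : ℕ) (F : St.RotForm (St.dot q) (e + 1))
    (ρ : (Fin q → ℝ) ≃L[ℝ] (Fin q → ℝ)) (hρ : ∀ v, St.dot q (ρ v) (ρ v) = St.dot q v v)
    (X : (Fin q → ℝ) →L[ℝ] (Fin q → ℝ)) (hX : St.IsSkew (St.dot q) X)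
    (hF : F.val (fun _ => (ρ : (Fin q → ℝ) →L[ℝ] (Fin q → ℝ)) ∘L X ∘L
      (ρ.symm : (Fin q → ℝ) →L[ℝ] (Fin q → ℝ))) ≠ F.val (fun _ => X))
    (hq : e + 1 ≤ q) : F.Survives := by
  refine survives_of_not_vanishes F (euler_part q e (ofForm F) ρ ?_ X hX hF hq)
  intro v
  have h := hρ v
  simp only [St.dot] at h
  simp only [sq]
  exact h

end Pool.Agent.HAF3
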