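import Pool.Agent.HAF2.Asm

/-!
# Module EULN: forms that are not invariant under orientation reversal

Let `F` be invariant under the rotations and `ρ` an isometry with `F (ρ X ρ⁻¹) ≠ F (X)` for some
skew-symmetric `X`. Then `q` is even and some coefficient of `F` on the torus at a monomial with all
exponents odd is not zero.

Proof. If `0 < det ρ` then `ρ` is a rotation, contradiction with `F.conj`. So `det ρ < 0` and
`0 < q`. Let `σ` be the reflection that changes the sign of the first coordinate;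
`σ (torusElement q x) σ⁻¹ = torusElement q x'` where `x'` is `x` with the sign of the first variable
changed. By `skew_normal_form` there is a rotation `g` with `g X g⁻¹ = torusElement q x`. Then
`F (X) = F (torusElement q x)` and
`ρ X ρ⁻¹ = (ρ g⁻¹ σ⁻¹) (σ torusElement q x σ⁻¹) (ρ g⁻¹ σ⁻¹)⁻¹` with `ρ g⁻¹ σ⁻¹` a rotation, so that
`F (ρ X ρ⁻¹) = F (torusElement q x')`. Expanding `F (torusElement q x)` multilinearly
(`torusElement_eq_sum`, see the proof of `exists_coefficient`), it is the sum over
`r : Fin d → Fin (q / 2)` of `∏ s, x (r s) * F (torusElement q (Pi.single (r s) 1))_s`. If for all `r`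
with nonzero coefficient the exponents are not all odd, then by `parity_exponents` they are all even,
and then `∏ s, x' (r s) = ∏ s, x (r s)`; contradiction.
-/

namespace Pool.Agent.HAF3

open Pool.Agent.HaefligerClasses (QuotientManifold IsForm HaefligerStructure curvature
  torusElement torusMatrix)
open Pool.Agent.HAF2

/-- change of the sign of the first coordinate -/
private noncomputable def eulS (q : ℕ) : (Fin q → ℝ) ≃L[ℝ] (Fin q → ℝ) :=
  ContinuousLinearEquiv.piCongrRight (fun i : Fin q =>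
    if i.1 = 0 then ContinuousLinearEquiv.neg ℝ else ContinuousLinearEquiv.refl ℝ ℝ)

private theorem eulS_apply (q : ℕ) (v : Fin q → ℝ) (i : Fin q) :
    eulS q v i = (if i.1 = 0 then -1 else 1) * v i := by
  simp only [eulS, ContinuousLinearEquiv.piCongrRight_apply]
  split_ifs <;> simp

private theorem eulS_symm_apply (q : ℕ) (v : Fin q → ℝ) (i : Fin q) :
    (eulS q).symm v i = (if i.1 = 0 then -1 else 1) * v i := by
  have h : (eulS q).symm v = eulS q v := by
    rw [ContinuousLinearEquiv.symm_apply_eq]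
    ext i
    rw [eulS_apply, eulS_apply]
    split_ifs <;> simp
  rw [h, eulS_apply]

private theorem eulS_det (q : ℕ) (hq : 0 < q) :
    LinearMap.det (eulS q).toLinearEquiv.toLinearMap = -1 := by
  have h1 : (eulS q).toLinearEquiv.toLinearMap =
      Matrix.toLin' (Matrix.diagonal fun i : Fin q => if i.1 = 0 then (-1 : ℝ) else 1) := by
    refine LinearMap.ext fun v => funext fun i => ?_
    rw [Matrix.toLin'_apply, Matrix.mulVec_diagonal]
    exact eulS_apply q v i
  rw [h1, LinearMap.det_toLin', Matrix.det_diagonal]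
  rw [Finset.prod_eq_single (⟨0, hq⟩ : Fin q)]
  · simp
  · intro i _ hi
    rw [if_neg]
    intro h0
    exact hi (Fin.ext h0)
  · intro h
    exact absurd (Finset.mem_univ _) h

private theorem eul_apply (q : ℕ) (x : Fin (q / 2) → ℝ) (v : Fin q → ℝ) (r : Fin q) :
    torusElement q x v r = ∑ c, torusMatrix q x r c * v c := by
  simp only [torusElement, LinearMap.coe_toContinuousLinearMap', Matrix.toLin'_apply,
    Matrix.mulVec, dotProduct]

private theorem eulS_conj (q : ℕ) (x : Fin (q / 2) → ℝ) :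
    (eulS q : (Fin q → ℝ) →L[ℝ] (Fin q → ℝ)) ∘L torusElement q x ∘L
      ((eulS q).symm : (Fin q → ℝ) →L[ℝ] (Fin q → ℝ)) =
    torusElement q (fun j => (if j.1 = 0 then -1 else 1) * x j) := by
  refine ContinuousLinearMap.ext fun v => funext fun r => ?_
  change eulS q (torusElement q x ((eulS q).symm v)) r = _
  rw [eulS_apply, eul_apply, eul_apply, Finset.mul_sum]
  refine Finset.sum_congr rfl fun c _ => ?_
  rw [eulS_symm_apply]
  unfold torusMatrix
  rw [Matrix.of_apply, Matrix.of_apply]
  by_cases h1 : r.1 % 2 = 1 ∧ r.1 = c.1 + 1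
  · rw [dif_pos h1, dif_pos h1]
    have e1 : ¬ (r.1 = 0) := by omega
    rw [if_neg e1]
    by_cases h3 : c.1 = 0
    · have h4 : c.1 / 2 = 0 := by omega
      simp only [if_pos h3, if_pos h4]
      ring
    · have h4 : ¬ (c.1 / 2 = 0) := by omega
      simp only [if_neg h3, if_neg h4]
      ring
  · rw [dif_neg h1, dif_neg h1]
    by_cases h2 : c.1 % 2 = 1 ∧ c.1 = r.1 + 1
    · rw [dif_pos h2, dif_pos h2]
      have e1 : ¬ (c.1 = 0) := by omega
      rw [if_neg e1]
      by_cases h3 : r.1 = 0
      · have h4 : r.1 / 2 = 0 := by omega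
        simp only [if_pos h3, if_pos h4]
        ring
      · have h4 : ¬ (r.1 / 2 = 0) := by omega
        simp only [if_neg h3, if_neg h4]
        ring
    · rw [dif_neg h2, dif_neg h2]
      ring

private theorem eul_expand {q d : ℕ} (F : RotInvariantForm q d) (x : Fin (q / 2) → ℝ) :
    F.toFun (fun _ => torusElement q x) = ∑ r : Fin d → Fin (q / 2),
      (∏ s, x (r s)) * F.toFun (fun s => torusElement q (Pi.single (r s) 1)) := by
  have h1 : F.toFun (fun _ => torusElement q x) =
      ∑ r : Fin d → Fin (q / 2),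
        F.toFun (fun s => x (r s) • torusElement q (Pi.single (r s) 1)) := by
    rw [torusElement_eq_sum]
    exact F.toFun.map_sum (fun _ j => x j • torusElement q (Pi.single j 1))
  rw [h1]
  refine Finset.sum_congr rfl fun r _ => ?_
  rw [MultilinearMap.map_smul_univ, smul_eq_mul]

private theorem eul_sign {q d : ℕ} (x : Fin (q / 2) → ℝ) (r : Fin d → Fin (q / 2))
    (hr : ∀ j, Even (Finset.univ.filter fun s => r s = j).card) :
    ∏ s, ((if (r s).1 = 0 then (-1 : ℝ) else 1) * x (r s)) = ∏ s, x (r s) := by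
  rw [Finset.prod_mul_distrib]
  have h : ∏ s, (if (r s).1 = 0 then (-1 : ℝ) else 1) = 1 := by
    rw [Finset.prod_ite, Finset.prod_const, Finset.prod_const_one, mul_one]
    by_cases hq : 0 < q / 2
    · have h1 : (Finset.univ.filter fun s => (r s).1 = 0) =
          Finset.univ.filter fun s => r s = ⟨0, hq⟩ := by
        ext s
        simp [Fin.ext_iff]
      rw [h1]
      exact (hr _).neg_one_pow
    · have h1 : (Finset.univ.filter fun s => (r s).1 = 0) = ∅ := by
        ext s
        have := (r s).2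
        omega
      rw [h1]
      simp
  rw [h, one_mul]

theorem exists_odd_coefficient {q d : ℕ} (F : RotInvariantForm q d)
    (ρ : (Fin q → ℝ) ≃L[ℝ] (Fin q → ℝ)) (hρ : ∀ v, ∑ k, ρ v k ^ 2 = ∑ k, v k ^ 2)
    (X : (Fin q → ℝ) →L[ℝ] (Fin q → ℝ)) (hX : IsSkew X)
    (hF : F.toFun (fun _ => (ρ : (Fin q → ℝ) →L[ℝ] (Fin q → ℝ)) ∘L X ∘L
      (ρ.symm : (Fin q → ℝ) →L[ℝ] (Fin q → ℝ))) ≠ F.toFun (fun _ => X)) :
    q = 2 * (q / 2) ∧ ∃ r : Fin d → Fin (q / 2),
      F.toFun (fun s => torusElement q (Pi.single (r s) 1)) ≠ 0 ∧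
      ∀ j, Odd (Finset.univ.filter fun s => r s = j).card := by
  by_contra hcon
  apply hF
  have hdet0 : LinearMap.det ρ.toLinearEquiv.toLinearMap ≠ 0 :=
    (LinearEquiv.isUnit_det' ρ.toLinearEquiv).ne_zero
  by_cases hdet : 0 < LinearMap.det ρ.toLinearEquiv.toLinearMap
  · exact F.conj ρ ⟨hρ, hdet⟩ (fun _ => X)
  have hneg : LinearMap.det ρ.toLinearEquiv.toLinearMap < 0 :=
    lt_of_le_of_ne (not_lt.1 hdet) hdet0
  have hq : 0 < q := by
    rcases Nat.eq_zero_or_pos q with h | h
    · subst h
      exfalso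
      apply hdet
      rw [LinearMap.det_eq_one_of_subsingleton]
      exact one_pos
    · exact h
  obtain ⟨g, x, hg, hgx⟩ := skew_normal_form X hX
  have hgsymm : ∀ v, ∑ k, g.symm v k ^ 2 = ∑ k, v k ^ 2 := by
    intro v
    rw [← hg.1 (g.symm v)]
    refine Finset.sum_congr rfl fun k _ => ?_
    rw [ContinuousLinearEquiv.coe_coe, ContinuousLinearEquiv.apply_symm_apply]
  have hssymm : ∀ v, ∑ k, (eulS q).symm v k ^ 2 = ∑ k, v k ^ 2 := by
    intro v
    refine Finset.sum_congr rfl fun k _ => ?_
    rw [eulS_symm_apply]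
    split_ifs <;> ring
  -- the rotation `ρ g⁻¹ σ⁻¹`
  let h : (Fin q → ℝ) ≃L[ℝ] (Fin q → ℝ) := (eulS q).symm.trans (g.symm.trans ρ)
  have hh : IsRotation (h : (Fin q → ℝ) →L[ℝ] (Fin q → ℝ)) := by
    refine ⟨fun v => ?_, ?_⟩
    · change ∑ k, ρ (g.symm ((eulS q).symm v)) k ^ 2 = _
      rw [hρ, hgsymm, hssymm]
    · change 0 < LinearMap.det (ρ.toLinearEquiv.toLinearMap ∘ₗ
        g.symm.toLinearEquiv.toLinearMap ∘ₗ (eulS q).symm.toLinearEquiv.toLinearMap)
      rw [LinearMap.det_comp, LinearMap.det_comp]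
      have h1 : LinearMap.det g.toLinearEquiv.toLinearMap *
          LinearMap.det g.symm.toLinearEquiv.toLinearMap = 1 :=
        LinearEquiv.det_mul_det_symm g.toLinearEquiv
      have h2 : LinearMap.det (eulS q).toLinearEquiv.toLinearMap *
          LinearMap.det (eulS q).symm.toLinearEquiv.toLinearMap = 1 :=
        LinearEquiv.det_mul_det_symm (eulS q).toLinearEquiv
      rw [eulS_det q hq] at h2
      have h3 : 0 < LinearMap.det g.toLinearEquiv.toLinearMap := hg.2
      have h4 : 0 < LinearMap.det g.symm.toLinearEquiv.toLinearMap := by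
        by_contra h5
        nlinarith
      have h6 : LinearMap.det (eulS q).symm.toLinearEquiv.toLinearMap = -1 := by linarith
      rw [h6]
      nlinarith
  have e1 : F.toFun (fun _ => X) = F.toFun (fun _ => torusElement q x) := by
    rw [← F.conj g hg (fun _ => X), hgx]
  have e2 : (ρ : (Fin q → ℝ) →L[ℝ] (Fin q → ℝ)) ∘L X ∘L
      (ρ.symm : (Fin q → ℝ) →L[ℝ] (Fin q → ℝ)) =
      (h : (Fin q → ℝ) →L[ℝ] (Fin q → ℝ)) ∘L
        torusElement q (fun j => (if j.1 = 0 then -1 else 1) * x j) ∘L
        (h.symm : (Fin q → ℝ) →L[ℝ] (Fin q → ℝ)) := by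
    rw [← eulS_conj, ← hgx]
    refine ContinuousLinearMap.ext fun v => ?_
    change ρ (X (ρ.symm v)) = ρ (g.symm ((eulS q).symm (eulS q (g (X (g.symm
      ((eulS q).symm ((eulS q) (g (ρ.symm v))))))))))
    simp only [ContinuousLinearEquiv.symm_apply_apply]
  rw [e1, e2, F.conj h hh (fun _ => torusElement q (fun j => (if j.1 = 0 then -1 else 1) * x j)),
    eul_expand, eul_expand]
  refine Finset.sum_congr rfl fun r _ => ?_
  by_cases hr : F.toFun (fun s => torusElement q (Pi.single (r s) 1)) = 0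
  · rw [hr, mul_zero, mul_zero]
  rcases parity_exponents F r hr with h1 | ⟨h1, h2⟩
  · rw [eul_sign x r h1]
  · exact absurd ⟨h1, r, hr, h2⟩ hcon

end Pool.Agent.HAF3
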