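import Pool.Agent.HAF3.JPow
import Pool.Agent.HAF2.VH

/-!
# Module JBLK: the block J

Base: one root (`Option Empty`, exponent `1`), with the cocycle `hj` and the connection form `hconn` of
the first factor (compare `hypL`), line bundle `jL`, `b = 2`, cycle `jC`. Haefliger structure: one
chart `f P = jz P.2` to `V = ℂ`, transition maps `z ↦ hvact g z + jz v` (`jz_jl`), frame
`hA P.1 ∘ oneTV` (`hA_hact`), `φ = 1`, `Θ z = exp (I (c om (jw v, hvact g z) + c / 2 om (jw v, jz v)))`.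
Splitting: `s z = (0, (z / 2, z / 2))`, `jl g (z / 2, z / 2) = (hvact g z / 2, hvact g z / 2)`.
-/

namespace Pool.Agent.HAF3

open Filter Topology MeasureTheory
open scoped ContDiff ComplexConjugate
open Pool.Agent.HaefligerClasses (QuotientManifold IsForm HaefligerStructure curvature
  torusElement)
open Pool.Agent.HAF2

/-- the linear action on the plane -/
noncomputable def hvL (g : SU11) : ℂ →L[ℝ] ℂ :=
  mulC g.a + mulC g.b ∘L (Complex.conjCLE : ℂ →L[ℝ] ℂ)

@[simp] theorem hvL_apply (g : SU11) (v : ℂ) : hvL g v = hvact g v := rfl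

/-- the frame as a linear map -/
noncomputable def hAL (X : ℝ × ℂ) : ℂ →L[ℝ] ℂ :=
  mulC (1 / (Real.sqrt (2 * hN X * (X.1 + hN X)) : ℂ)) ∘L
    (mulC ((X.1 + hN X : ℝ) : ℂ) + mulC X.2 ∘L (Complex.conjCLE : ℂ →L[ℝ] ℂ))

theorem hAL_apply (X : ℝ × ℂ) (y : ℂ) : hAL X y = hA X y := by
  show (1 / (Real.sqrt (2 * hN X * (X.1 + hN X)) : ℂ)) *
    (((X.1 + hN X : ℝ) : ℂ) * y + X.2 * conj y) = _
  rw [one_div, mul_comm, ← div_eq_mul_inv]
  rfl

theorem jbk_det (a b : ℂ) :
    (mulC a + mulC b ∘L (Complex.conjCLE : ℂ →L[ℝ] ℂ)).det =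
      Complex.normSq a - Complex.normSq b := by
  have h : LinearMap.det ((mulC a + mulC b ∘L (Complex.conjCLE : ℂ →L[ℝ] ℂ) :
      ℂ →L[ℝ] ℂ) : ℂ →ₗ[ℝ] ℂ) = Complex.normSq a - Complex.normSq b := by
    rw [← LinearMap.det_toMatrix Complex.basisOneI, Matrix.det_fin_two]
    simp only [LinearMap.toMatrix_apply, Complex.coe_basisOneI, Matrix.cons_val_zero,
      Matrix.cons_val_one, Complex.coe_basisOneI_repr]
    rw [Complex.normSq_apply, Complex.normSq_apply]
    simp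
    ring
  exact h

theorem det_hvL (g : SU11) : 0 < (hvL g).det := by
  have h : (hvL g).det = Complex.normSq g.a - Complex.normSq g.b := jbk_det _ _
  rw [h, g.norm_eq]
  exact one_pos

theorem jbk_det_mulC (c : ℂ) : (mulC c).det = Complex.normSq c := by
  have h := jbk_det c 0
  have e : mulC c + mulC 0 ∘L (Complex.conjCLE : ℂ →L[ℝ] ℂ) = mulC c := by
    refine ContinuousLinearMap.ext fun w => ?_
    show c * w + 0 * _ = c * w
    rw [zero_mul, add_zero]
  rw [e, map_zero, sub_zero] at h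
  exact h

theorem det_hAL (X : ℝ × ℂ) (hX : X ∈ hU) : 0 < (hAL X).det := by
  have hN0 := hN_pos X hX
  have h2 := add_hN_pos X hX
  have h1 : (hAL X).det = (mulC (1 / (Real.sqrt (2 * hN X * (X.1 + hN X)) : ℂ))).det *
      (mulC ((X.1 + hN X : ℝ) : ℂ) + mulC X.2 ∘L (Complex.conjCLE : ℂ →L[ℝ] ℂ)).det :=
    LinearMap.det_comp (mulC (1 / (Real.sqrt (2 * hN X * (X.1 + hN X)) : ℂ)) : ℂ →ₗ[ℝ] ℂ)
      ((mulC ((X.1 + hN X : ℝ) : ℂ) + mulC X.2 ∘L (Complex.conjCLE : ℂ →L[ℝ] ℂ) :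
        ℂ →L[ℝ] ℂ) : ℂ →ₗ[ℝ] ℂ)
  rw [h1, jbk_det_mulC, jbk_det]
  have h3 : 0 < 2 * hN X * (X.1 + hN X) := by positivity
  have h4 : 0 < Real.sqrt (2 * hN X * (X.1 + hN X)) := Real.sqrt_pos.2 h3
  have h5 : (1 / (Real.sqrt (2 * hN X * (X.1 + hN X)) : ℂ)) ≠ 0 := by
    apply one_div_ne_zero
    exact_mod_cast h4.ne'
  refine mul_pos (Complex.normSq_pos.2 h5) ?_
  rw [Complex.normSq_ofReal, Complex.normSq_eq_norm_sq]
  have hX' : ‖X.2‖ < X.1 := hX
  have h6 := norm_nonneg X.2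
  nlinarith

theorem contDiffOn_hAL : ContDiffOn ℝ ∞ hAL hU := by
  have hmul : ContDiff ℝ ∞ (fun c : ℂ => mulC c) := (ContinuousLinearMap.mul ℝ ℂ).contDiff
  have h1 : ContDiffOn ℝ ∞ (fun X : ℝ × ℂ => ((X.1 + hN X : ℝ) : ℂ)) hU :=
    Complex.ofRealCLM.contDiff.comp_contDiffOn (contDiffOn_fst.add contDiffOn_hN)
  have h2 : ContDiffOn ℝ ∞ (fun X : ℝ × ℂ => 2 * hN X * (X.1 + hN X)) hU :=
    (contDiffOn_const.mul contDiffOn_hN).mul (contDiffOn_fst.add contDiffOn_hN)
  have hpos : ∀ X ∈ hU, 0 < 2 * hN X * (X.1 + hN X) := by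
    intro X hX
    have hN0 := hN_pos X hX
    have h2 := add_hN_pos X hX
    positivity
  have h3 : ContDiffOn ℝ ∞ (fun X : ℝ × ℂ => Real.sqrt (2 * hN X * (X.1 + hN X))) hU :=
    h2.sqrt (fun X hX => (hpos X hX).ne')
  have h4 : ContDiffOn ℝ ∞
      (fun X : ℝ × ℂ => ((Real.sqrt (2 * hN X * (X.1 + hN X)) : ℝ) : ℂ)) hU :=
    Complex.ofRealCLM.contDiff.comp_contDiffOn h3
  have h5 : ContDiffOn ℝ ∞
      (fun X : ℝ × ℂ => (1 : ℂ) / ((Real.sqrt (2 * hN X * (X.1 + hN X)) : ℝ) : ℂ)) hU :=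
    (h4.inv (fun X hX => by
      have := Real.sqrt_pos.2 (hpos X hX)
      exact_mod_cast this.ne')).congr (fun X _ => by rw [one_div]; rfl)
  have h6 : ContDiffOn ℝ ∞ (fun X : ℝ × ℂ => mulC X.2 ∘L (Complex.conjCLE : ℂ →L[ℝ] ℂ)) hU :=
    (hmul.comp_contDiffOn contDiffOn_snd).clm_comp contDiffOn_const
  exact (hmul.comp_contDiffOn h5).clm_comp ((hmul.comp_contDiffOn h1).add h6)

theorem jbk_contDiff_affine (g : SU11) (c : ℂ) :
    ContDiff ℝ ∞ (fun z : ℂ => hvact g z + c) :=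
  (hvL g).contDiff.add contDiff_const

theorem jbk_fderiv_affine (g : SU11) (c z : ℂ) :
    fderiv ℝ (fun z : ℂ => hvact g z + c) z = hvL g :=
  ((hvL g).hasFDerivAt.add_const c).fderiv

/-- the Haefliger structure -/
noncomputable def jH : HaefligerStructure jM ℂ where
  ι := Unit
  dom := fun _ => jM.U
  isOpen_dom := fun _ => jM.isOpen_U
  dom_subset := fun _ => subset_rfl
  cover := fun x hx => ⟨(), hx⟩
  f := fun _ P => jz P.2
  smooth_f := fun _ =>
    (jz.contDiff.comp contDiff_snd).contDiffOn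
  γ := fun _ a _ _ z => hvact (jel a).g z + jz (jel a).v
  smooth_γ := fun _ a _ _ _ _ => (jbk_contDiff_affine _ _).contDiffAt
  orient_γ := fun _ a _ x _ _ => by
    show 0 < (fderiv ℝ (fun z : ℂ => hvact (jel a).g z + jz (jel a).v) (jz x.2)).det
    rw [jbk_fderiv_affine]
    exact det_hvL _
  map_γ := fun _ a _ x _ _ => Eventually.of_forall fun y => by
    show hvact (jel a).g (jz y.2) + jz (jel a).v = jz (jl (jel a).g y.2 + (jel a).v)
    rw [map_add, jz_jl]
  locConst_γ := fun _ _ _ _ _ _ => Eventually.of_forall fun _ => Eventually.of_forall fun _ => rfl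
  comp_γ := fun _ a _ b _ x _ _ _ => Eventually.of_forall fun v => by
    show hvact (jel a).g (hvact (jel b).g v + jz (jel b).v) + jz (jel a).v =
      hvact (jel (a + b)).g v + jz (jel (a + b)).v
    have h1 : hvact (jel a).g (hvact (jel b).g v + jz (jel b).v) =
        hvact (jel a).g (hvact (jel b).g v) + hvact (jel a).g (jz (jel b).v) :=
      (hvL (jel a).g).map_add _ _
    rw [jel_add, JA_mul_g, JA_mul_v, hyl_hvact_mul, h1, map_add, jz_jl]
    ring

theorem jbk_diff_hj (g : SU11) (x : JE) (hx : x.1 ∈ hU) :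
    DifferentiableAt ℝ (hj g) x.1 :=
  ((contDiffOn_hj g).contDiffAt (isOpen_hU.mem_nhds hx)).differentiableAt (by simp)

theorem jbk_diff_hconn (x : JE) (hx : x.1 ∈ hU) : DifferentiableAt ℝ hconn x.1 :=
  (contDiffOn_hconn.contDiffAt (isOpen_hU.mem_nhds hx)).differentiableAt (by simp)

theorem jbk_fderiv_hj (g : SU11) (x : JE) (hx : x.1 ∈ hU) (u : JE) :
    fderiv ℝ (fun y : JE => hj g y.1) x u = fderiv ℝ (hj g) x.1 u.1 := by
  have h := (jbk_diff_hj g x hx).hasFDerivAt.comp x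
    (hasFDerivAt_fst (𝕜 := ℝ) (p := x))
  have h' : HasFDerivAt (fun y : JE => hj g y.1) _ x := h
  rw [h'.fderiv]
  rfl

theorem jbk_fderiv_hconn (x : JE) (hx : x.1 ∈ hU) (u w : JE) :
    fderiv ℝ (fun y : JE => hconn y.1 ∘L ContinuousLinearMap.fst ℝ (ℝ × ℂ) (ℂ × ℂ)) x u w =
      fderiv ℝ hconn x.1 u.1 w.1 := by
  have h := (jbk_diff_hconn x hx).hasFDerivAt.comp x
    (hasFDerivAt_fst (𝕜 := ℝ) (p := x))
  have h1 : HasFDerivAt (fun y : JE => hconn y.1) _ x := h
  have h2 := ((ContinuousLinearMap.compL ℝ JE (ℝ × ℂ) ℝ).flip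
    (ContinuousLinearMap.fst ℝ (ℝ × ℂ) (ℂ × ℂ))).hasFDerivAt.comp x h1
  have h3 : HasFDerivAt (fun y : JE => hconn y.1 ∘L
    ContinuousLinearMap.fst ℝ (ℝ × ℂ) (ℂ × ℂ)) _ x := h2
  rw [h3.fderiv]
  rfl

/-- the base -/
noncomputable def jBase : Base (Option Empty) 3 (fun _ => 1) 2 where
  E := JE
  Λ := JLam
  M := jM
  ι := Unit
  dom := fun _ => jM.U
  isOpen_dom := fun _ => jM.isOpen_U
  dom_subset := fun _ => subset_rfl
  cover := fun x hx => ⟨(), hx⟩
  ρ := fun _ a _ x _ => hj (jel a).g x.1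
  norm_ρ := fun _ a _ x hx _ _ => norm_hj (jel a).g x.1 hx.1
  diff_ρ := fun _ a _ x hx _ _ =>
    (jbk_diff_hj (jel a).g x hx.1).comp x differentiableAt_fst
  θ := fun _ _ x => hconn x.1 ∘L ContinuousLinearMap.fst ℝ (ℝ × ℂ) (ℂ × ℂ)
  smooth_θ := fun _ _ =>
    (contDiffOn_hconn.comp contDiffOn_fst (fun _ hx => hx.1)).clm_comp contDiffOn_const
  compat := fun _ a _ x hx _ _ u => by
    rw [jbk_fderiv_hj _ x hx.1, fderiv_hj _ _ hx.1]
    show _ = Complex.I * hj (jel a).g x.1 * ((hconn x.1 u.1 -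
      hconn (hact (jel a).g x.1) ((fderiv ℝ (jact (jel a)) x u).1) : ℝ) : ℂ)
    rw [fderiv_jact, jactL_apply]
  curv := fun _ P U W => dform hconn P.1 U.1 W.1
  curv_eq := fun _ _ x hx u w => by
    unfold dform
    rw [jbk_fderiv_hconn x hx.1, jbk_fderiv_hconn x hx.1]
  ℓ := jL
  N := 2 + 4
  hN := rfl
  cyc := jC
  integral := by
    obtain ⟨C, hC, h⟩ := jC_power
    refine ⟨C, hC, fun x y => ?_⟩
    have e1 : (fun p u w => ∑ r : Option Empty, x r * dform hconn p.1 u.1 w.1 +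
        y * dform jL.a p u w) = fun P U W : JE =>
        x none * dform hconn P.1 U.1 W.1 + y * (-jc * jom U.2 W.2) := by
      funext p u w
      rw [dform_jL, Fintype.sum_option]
      simp
    rw [e1, h (x none) y, Fintype.prod_option]
    simp

/-- the holonomy as a function on the plane -/
noncomputable def jTh (x : JA) (z : ℂ) : ℂ :=
  Complex.exp (Complex.I * ((jc * om (jw x.v) (hvact x.g z) +
    jc / 2 * om (jw x.v) (jz x.v) : ℝ) : ℂ))

theorem contDiff_jTh (x : JA) : ContDiff ℝ ∞ (jTh x) := by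
  unfold jTh
  refine Complex.contDiff_exp.comp (contDiff_const.mul (Complex.ofRealCLM.contDiff.comp ?_))
  refine ContDiff.add (contDiff_const.mul ?_) contDiff_const
  exact (Complex.imCLM ∘L mulC (conj (jw x.v)) ∘L hvL x.g).contDiff

theorem jTh_jJ (x : JA) (P : JE) : jJ x P = jTh x (jz P.2) := rfl

/-- the splitting -/
noncomputable def jsp : ℂ →L[ℝ] JE :=
  (0 : ℂ →L[ℝ] ℝ × ℂ).prod ((mulC (1 / 2)).prod (mulC (1 / 2)))

theorem jsp_apply (z : ℂ) : jsp z = (0, (1 / 2 * z, 1 / 2 * z)) := rfl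

theorem j_block : ∃ D : Block (Option Empty) Empty 3 (fun _ => 1) 2, D.Splits := by
  refine ⟨{ toBase := jBase
            V := ℂ
            H := jH
            b0 := fun _ => ()
            dom_b0 := fun _ => subset_rfl
            o := oneTV
            frame := fun _ P => hAL P.1 ∘L (oneTV : TV (Option Empty) Empty →L[ℝ] ℂ)
            smooth_frame := fun _ =>
              (contDiffOn_hAL.comp contDiffOn_fst (fun _ hx => hx.1)).clm_comp contDiffOn_const
            orient_frame := ?_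
            frame_rot := ?_
            φ := fun _ _ => 1
            smooth_φ := fun _ => contDiffOn_const
            norm_φ := fun _ _ _ => norm_one
            leafwise := ?_ }, ?_⟩
  · intro i p hp
    have h := det_hAL p.1 hp.1
    rw [← oneTV_det] at h
    exact h
  · intro i a j x hj hi
    have hn : jH.normal i a j x = hvL (jel a).g := jbk_fderiv_affine _ _ _
    show jH.normal i a j x ∘L (hAL x.1 ∘L
      (oneTV : TV (Option Empty) Empty →L[ℝ] ℂ)) = (hAL (hact (jel a).g x.1) ∘L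
      (oneTV : TV (Option Empty) Empty →L[ℝ] ℂ)) ∘L
        rotT (fun _ => Pool.Agent.HAF2.hj (jel a).g x.1)
    rw [hn, ContinuousLinearMap.comp_assoc, oneTV_rot, ← ContinuousLinearMap.comp_assoc,
      ← ContinuousLinearMap.comp_assoc]
    refine congrArg (fun A : ℂ →L[ℝ] ℂ => A ∘L
      (oneTV : TV (Option Empty) Empty →L[ℝ] ℂ)) (ContinuousLinearMap.ext fun y => ?_)
    show hvact (jel a).g (hAL x.1 y) =
      hAL (hact (jel a).g x.1) (Pool.Agent.HAF2.hj (jel a).g x.1 * y)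
    rw [hAL_apply, hAL_apply]
    exact (hA_hact (jel a).g x.1 hj.1 y).symm
  · intro i a j x _ _
    refine ⟨jTh (jel a), (contDiff_jTh _).contDiffAt, Eventually.of_forall fun y => ?_⟩
    show 1 * jJ (jel a) y = jTh (jel a) (jz y.2) * 1
    rw [jTh_jJ, one_mul, mul_one]
  · refine ⟨fun _ _ => jsp, fun _ => contDiffOn_const, ?_, ?_⟩
    · intro i x _
      have h1 : fderiv ℝ (fun P : JE => jz P.2) x =
          jz ∘L ContinuousLinearMap.snd ℝ (ℝ × ℂ) (ℂ × ℂ) :=
        (jz ∘L ContinuousLinearMap.snd ℝ (ℝ × ℂ) (ℂ × ℂ)).fderiv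
      show fderiv ℝ (fun P : JE => jz P.2) x ∘L jsp = _
      rw [h1]
      refine ContinuousLinearMap.ext fun z => ?_
      show 1 / 2 * z + 1 / 2 * z = z
      ring
    · intro i a j x _ _
      have hn : jH.normal i a j x = hvL (jel a).g := jbk_fderiv_affine _ _ _
      show jsp ∘L jH.normal i a j x = fderiv ℝ (jact (jel a)) x ∘L jsp
      rw [hn, fderiv_jact]
      refine ContinuousLinearMap.ext fun z => ?_
      show ((0 : ℝ × ℂ), (1 / 2 * hvact (jel a).g z, 1 / 2 * hvact (jel a).g z)) =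
        (hact (jel a).g 0, jl (jel a).g (1 / 2 * z, 1 / 2 * z))
      refine Prod.ext ?_ ?_
      · exact ((hactL (jel a).g).map_zero).symm
      · refine Prod.ext ?_ ?_
        · show 1 / 2 * ((jel a).g.a * z + (jel a).g.b * conj z) =
            (jel a).g.a * (1 / 2 * z) + (jel a).g.b * conj (1 / 2 * z)
          rw [map_mul, map_div₀, map_one, Complex.conj_ofNat]
          ring
        · show 1 / 2 * ((jel a).g.a * z + (jel a).g.b * conj z) =
            (jel a).g.a * (1 / 2 * z) + (jel a).g.b * conj (1 / 2 * z)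
          rw [map_mul, map_div₀, map_one, Complex.conj_ofNat]
          ring

end Pool.Agent.HAF3
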