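import Pool.Agent.HAF2.Asm

/-!
# Module RLZJ: realisable systems of odd exponents

* `jblock_power`: induction on `m` with `prod_block` and `relabel_block`, exactly as `block_power` in
  `HAF2/Rlz.lean`.
* `rlz_suspend_j`: suspension of the `m`-th power, as `rlz_suspend_odd`.
* `rlz_of_odd_j`: write `S = T + replicate k 1` with `T` the part of the exponents `≥ 3`; each
  `a = 2 m + 1` in `T` is realised together with `m` exponents `1`; the remaining exponents `1` by
  `rlz_suspend_odd hs hh 0`. See `rlz_of_odd` in `HAF2/Rlz.lean`. The hypothesis says that the sum of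
  the `m` over `T` is at most `k` (`∑ (a + 1) = ∑ (2 m + 2)`, `card S = card T + k`).
-/

namespace Pool.Agent.HAF3

open Pool.Agent.HaefligerClasses (QuotientManifold IsForm HaefligerStructure curvature
  torusElement)
open Pool.Agent.HAF2

private theorem univ_option_val' (R : Type) [Fintype R] :
    (Finset.univ : Finset (Option R)).val =
      none ::ₘ (Finset.univ : Finset R).val.map some := rfl

/-- powers of the block J -/
theorem jblock_power (D : Block (Option Empty) Empty 3 (fun _ => 1) 2) (hD : D.Splits) (a : ℕ) :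
    ∃ D' : Block (Fin a) Empty (3 * a) (fun _ => 1) (2 * a), D'.Splits := by
  induction a with
  | zero =>
    obtain ⟨D, hD⟩ := point_block
    obtain ⟨D', hD'⟩ := relabel_block (Equiv.equivOfIsEmpty (Fin 0) Empty) (Equiv.refl Empty)
      (n' := 3 * 0) (α' := fun _ => 1) (b' := 2 * 0) rfl (fun r => r.elim0) rfl D
    exact ⟨D', hD' hD⟩
  | succ a ih =>
    obtain ⟨C, hC⟩ := ih
    obtain ⟨P, hP⟩ := prod_block C D
    obtain ⟨D', hD'⟩ := relabel_block
      ((finSumFinEquiv (m := a) (n := 1)).symm.trans
        (Equiv.sumCongr (Equiv.refl (Fin a)) (Equiv.ofUnique (Fin 1) (Option Empty))))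
      (Equiv.equivOfIsEmpty Empty (Empty ⊕ Empty))
      (n' := 3 * (a + 1)) (α' := fun _ => 1) (b' := 2 * (a + 1)) (by ring)
      (fun r => by
        generalize ((finSumFinEquiv (m := a) (n := 1)).symm.trans
          (Equiv.sumCongr (Equiv.refl (Fin a)) (Equiv.ofUnique (Fin 1) (Option Empty)))) r = z
        cases z <;> rfl) (by ring) P
    exact ⟨D', hD' (hP hC hD)⟩

theorem rlz_suspend_j (hs : SuspensionThm)
    (hj : ∃ D : Block (Option Empty) Empty 3 (fun _ => 1) 2, D.Splits) (a : ℕ) :
    Rlz ((2 * a + 1) ::ₘ Multiset.replicate a 1) 0 := by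
  obtain ⟨D₀, hD₀⟩ := hj
  obtain ⟨D, hD⟩ := jblock_power D₀ hD₀ a
  obtain ⟨P⟩ := hs _ _ _ _ _ _ _ D hD
  have hsum : ((2 * a + 1) ::ₘ Multiset.replicate a 1).sum = 3 * a + 1 := by
    rw [Multiset.sum_cons, Multiset.sum_replicate, smul_eq_mul]
    ring
  refine ⟨Option (Fin a), Empty, inferInstance, inferInstance,
    fun o => o.elim (2 * a + 1) (fun _ => 1), ?_, ?_, ?_⟩
  · rw [univ_option_val', Multiset.map_cons, Multiset.map_map]
    congr 1
    rw [show ((fun o : Option (Fin a) => o.elim (2 * a + 1) (fun _ => 1)) ∘ some)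
      = Function.const (Fin a) 1 from rfl, Multiset.map_const]
    simp
  · simp
  · rw [hsum]
    exact ⟨P⟩

theorem rlz_of_odd_j (hs : SuspensionThm)
    (hh : ∃ D : Block (Option Empty) Empty 2 (fun _ => 1) 1, D.Splits)
    (hj : ∃ D : Block (Option Empty) Empty 3 (fun _ => 1) 2, D.Splits) (S : Multiset ℕ)
    (hS : ∀ a ∈ S, Odd a)
    (hq : (S.filter fun a => 3 ≤ a).sum + (S.filter fun a => 3 ≤ a).card ≤ 2 * S.card) :
    Rlz S 0 := by
  have hone : ∀ n : ℕ, Rlz (Multiset.replicate n 1) 0 := by
    intro n
    induction n with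
    | zero => simpa using rlz_zero
    | succ n ih =>
      have h := rlz_add ih (rlz_suspend_odd hs hh 0)
      rw [Multiset.replicate_succ, ← Multiset.singleton_add, add_comm]
      simpa using h
  have key : ∀ T : Multiset ℕ, (∀ a ∈ T, 3 ≤ a ∧ Odd a) →
      ∃ n, 2 * n + T.card = T.sum ∧ Rlz (T + Multiset.replicate n 1) 0 := by
    intro T
    induction T using Multiset.induction_on with
    | empty => exact fun _ => ⟨0, by simp, by simpa using rlz_zero⟩
    | cons a T ih =>
      intro h
      obtain ⟨n, hn, hr⟩ := ih fun b hb => h b (Multiset.mem_cons_of_mem hb)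
      obtain ⟨h3, d, rfl⟩ := h a (Multiset.mem_cons_self a T)
      refine ⟨d + n, ?_, ?_⟩
      · rw [Multiset.sum_cons, Multiset.card_cons]
        omega
      · have h' := rlz_add (rlz_suspend_j hs hj d) hr
        rw [Multiset.replicate_add]
        rw [show (2 * d + 1) ::ₘ T + (Multiset.replicate d 1 + Multiset.replicate n 1) =
          (2 * d + 1) ::ₘ Multiset.replicate d 1 + (T + Multiset.replicate n 1) by
            rw [← Multiset.singleton_add, ← Multiset.singleton_add]
            abel]
        exact h'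
  have hsplit : S = (S.filter fun a => 3 ≤ a) +
      Multiset.replicate (S.card - (S.filter fun a => 3 ≤ a).card) 1 := by
    have h1 : S.filter (fun a => ¬ 3 ≤ a) =
        Multiset.replicate (S.card - (S.filter fun a => 3 ≤ a).card) 1 := by
      rw [Multiset.eq_replicate]
      refine ⟨?_, fun b hb => ?_⟩
      · have h2 := congrArg Multiset.card (Multiset.filter_add_not (fun a => 3 ≤ a) S)
        rw [Multiset.card_add] at h2
        omega
      · obtain ⟨hb1, hb2⟩ := Multiset.mem_filter.1 hb
        obtain ⟨c, hc⟩ := hS b hb1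
        omega
    rw [← h1, Multiset.filter_add_not]
  obtain ⟨n, hn, hr⟩ := key (S.filter fun a => 3 ≤ a) fun a ha =>
    ⟨(Multiset.mem_filter.1 ha).2, hS a (Multiset.mem_filter.1 ha).1⟩
  have hcard : (S.filter fun a => 3 ≤ a).card ≤ S.card :=
    Multiset.card_le_card (Multiset.filter_le _ _)
  have hle : n ≤ S.card - (S.filter fun a => 3 ≤ a).card := by omega
  have h := rlz_add hr (hone (S.card - (S.filter fun a => 3 ≤ a).card - n))
  rw [add_assoc, ← Multiset.replicate_add, add_zero,
    show n + (S.card - (S.filter fun a => 3 ≤ a).card - n) =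
      S.card - (S.filter fun a => 3 ≤ a).card by omega, ← hsplit] at h
  exact h

end Pool.Agent.HAF3
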