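import Pool.Agent.HAF2.Main
import Pool.Agent.HAF3.RlzJ
import Pool.Agent.HAF3.EulN
import Pool.Agent.HAF3.JBlk

/-!
# Module EULF: the Euler part
-/

namespace Pool.Agent.HAF3

open Pool.Agent.HaefligerClasses (QuotientManifold IsForm HaefligerStructure curvature
  torusElement)
open Pool.Agent.HAF2

/-- each exponent `a ≥ 3` satisfies `a + 1 ≤ 2 (a - 1)` -/
theorem filter_three_le (S : Multiset ℕ) (hS : ∀ a ∈ S, 1 ≤ a) :
    (S.filter fun a => 3 ≤ a).sum + (S.filter fun a => 3 ≤ a).card + 2 * S.card ≤ 2 * S.sum := by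
  induction S using Multiset.induction_on with
  | empty => simp
  | cons a S ih =>
    have h1 := ih fun b hb => hS b (Multiset.mem_cons_of_mem hb)
    have ha := hS a (Multiset.mem_cons_self a S)
    by_cases h3 : 3 ≤ a
    · have e1 : ((a ::ₘ S).filter fun a => 3 ≤ a) = a ::ₘ (S.filter fun a => 3 ≤ a) :=
        Multiset.filter_cons_of_pos _ h3
      rw [e1, Multiset.sum_cons, Multiset.card_cons,
        Multiset.card_cons, Multiset.sum_cons]
      omega
    · have e1 : ((a ::ₘ S).filter fun a => 3 ≤ a) = (S.filter fun a => 3 ≤ a) :=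
        Multiset.filter_cons_of_neg _ h3
      rw [e1, Multiset.card_cons, Multiset.sum_cons]
      omega

/-- monomials with odd exponents -/
theorem euler_criterion (hs : SuspensionThm)
    (hh : ∃ D : Block (Option Empty) Empty 2 (fun _ => 1) 1, D.Splits)
    (hj : ∃ D : Block (Option Empty) Empty 3 (fun _ => 1) 2, D.Splits)
    (q e : ℕ) (F : RotInvariantForm q (e + 1)) (r : Fin (e + 1) → Fin (q / 2))
    (hF : F.toFun (fun s => torusElement q (Pi.single (r s) 1)) ≠ 0)
    (hq2 : q = 2 * (q / 2)) (hodd : ∀ j, Odd (Finset.univ.filter fun s => r s = j).card)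
    (hd : e + 1 ≤ q) : ¬ VanishesOnHaefliger F := by
  refine not_vanishes_of_rlz F r hF ?_
  have hodd' : ∀ j, Odd (cnt r j) := hodd
  have hall : (Finset.univ.filter fun j => cnt r j ≠ 0) = Finset.univ := by
    ext j
    simp only [Finset.mem_filter, Finset.mem_univ, true_and, iff_true]
    intro h0
    have := hodd' j
    rw [h0] at this
    exact absurd this (by decide)
  have hcard : (expo r).card = q / 2 := by
    unfold expo
    rw [hall, Multiset.card_map]
    exact (Finset.card_univ).trans (Fintype.card_fin _)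
  have h0 : q - 2 * (expo r).card = 0 := by omega
  rw [h0]
  refine rlz_of_odd_j hs hh hj _ ?_ ?_
  · intro a ha
    unfold expo at ha
    obtain ⟨j, hj, rfl⟩ := Multiset.mem_map.1 ha
    exact hodd' j
  · -- `∑_{a ≥ 3} (a + 1) ≤ 2 ∑_{a ≥ 3} (a - 1) = 2 (d - q / 2) ≤ q`
    have h1 := filter_three_le (expo r) (by
      intro a ha
      unfold expo at ha
      obtain ⟨j, hj, rfl⟩ := Multiset.mem_map.1 ha
      exact (hodd' j).pos)
    have h2 := sum_expo r
    omega

/-- every class of degree at most `2 q` that is not a polynomial in the Pontrjagin classes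
survives -/
theorem euler_part (q e : ℕ) (F : RotInvariantForm q (e + 1))
    (ρ : (Fin q → ℝ) ≃L[ℝ] (Fin q → ℝ)) (hρ : ∀ v, ∑ k, ρ v k ^ 2 = ∑ k, v k ^ 2)
    (X : (Fin q → ℝ) →L[ℝ] (Fin q → ℝ)) (hX : IsSkew X)
    (hF : F.toFun (fun _ => (ρ : (Fin q → ℝ) →L[ℝ] (Fin q → ℝ)) ∘L X ∘L
      (ρ.symm : (Fin q → ℝ) →L[ℝ] (Fin q → ℝ))) ≠ F.toFun (fun _ => X))
    (hd : e + 1 ≤ q) : ¬ VanishesOnHaefliger F := by
  obtain ⟨hq2, r, hr, hodd⟩ := exists_odd_coefficient F ρ hρ X hX hF
  exact euler_criterion (fun _ _ _ _ _ _ _ D hD => suspension D hD) hh_block j_block q e F r hr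
    hq2 hodd hd

end Pool.Agent.HAF3
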