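import Pool.Agent.HAF3.JDefs
import Pool.Agent.HAF2.HypC

/-!
# Public copies of the auxiliary lemmas of `HAF2/HypC.lean`
-/

namespace Pool.Agent.HAF3

open Filter Topology MeasureTheory
open scoped ContDiff ComplexConjugate
open Pool.Agent.HaefligerClasses (QuotientManifold IsForm HaefligerStructure curvature
  torusElement)
open Pool.Agent.HAF2

theorem convex_hU : Convex ℝ hU := by
  intro X hX Y hY a b ha hb hab
  simp only [hU, Set.mem_ofPred_eq] at hX hY ⊢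
  simp only [Prod.snd_add, Prod.smul_snd, Prod.fst_add, Prod.smul_fst, smul_eq_mul]
  have h1 : ‖a • X.2 + b • Y.2‖ ≤ a * ‖X.2‖ + b * ‖Y.2‖ := by
    refine (norm_add_le _ _).trans ?_
    rw [norm_smul, norm_smul, Real.norm_of_nonneg ha, Real.norm_of_nonneg hb]
  rcases eq_or_lt_of_le ha with h0 | h0
  · have hb1 : b = 1 := by linarith
    subst hb1
    rw [← h0] at h1 ⊢
    linarith
  · have h2 : a * ‖X.2‖ < a * X.1 := mul_lt_mul_of_pos_left hX h0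
    have h3 : b * ‖Y.2‖ ≤ b * Y.1 := mul_le_mul_of_nonneg_left hY.le hb
    linarith

theorem base_mem : ((1 : ℝ), (0 : ℂ)) ∈ hU := by
  simp [hU]

theorem side_mem (k : ℕ) (t : ℝ) (h0 : 0 ≤ t) (h1 : t ≤ 1) :
    Wv k + t • (Wv (k + 1) - Wv k) ∈ hU := by
  have h := convex_hU (Wv_mem k) (Wv_mem (k + 1)) (sub_nonneg.2 h1) h0 (by ring)
  have e : (1 - t) • Wv k + t • Wv (k + 1) = Wv k + t • (Wv (k + 1) - Wv k) := by module
  rwa [e] at h
theorem contDiff_hCube (k : ℕ) : ContDiff ℝ ∞ (hCube k) := by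
  unfold hCube
  fun_prop

theorem stokes_sq (Ω : Set (Fin 2 → ℝ)) (hΩ : IsOpen Ω)
    (hI : Set.Icc (0 : Fin 2 → ℝ) 1 ⊆ Ω)
    (B : (Fin 2 → ℝ) → (Fin 2 → ℝ) [⋀^Fin 1]→L[ℝ] ℝ) (hB : ContDiffOn ℝ 1 B Ω) :
    ∫ ξ in Set.Icc (0 : Fin 2 → ℝ) 1, extDeriv B ξ (fun i => Pi.single i 1) =
      ((∫ η in Set.Icc (0 : Fin 1 → ℝ) 1, B ![1, η 0] (fun _ => Pi.single 1 1)) -
        ∫ η in Set.Icc (0 : Fin 1 → ℝ) 1, B ![0, η 0] (fun _ => Pi.single 1 1)) -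
      ((∫ η in Set.Icc (0 : Fin 1 → ℝ) 1, B ![η 0, 1] (fun _ => Pi.single 0 1)) -
        ∫ η in Set.Icc (0 : Fin 1 → ℝ) 1, B ![η 0, 0] (fun _ => Pi.single 0 1)) := by
  have hd : ∀ ξ ∈ Ω, DifferentiableAt ℝ B ξ := fun ξ hξ =>
    (hB.contDiffAt (hΩ.mem_nhds hξ)).differentiableAt (by norm_num)
  set f : Fin 2 → (Fin 2 → ℝ) → ℝ := fun i ξ =>
    (-1 : ℝ) ^ (i : ℕ) * B ξ (fun k => Pi.single (i.succAbove k) 1) with hf
  have hfB : ∀ i : Fin 2, ContDiffOn ℝ 1 (fun ξ => B ξ (fun k : Fin 1 =>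
      (Pi.single (i.succAbove k) 1 : Fin 2 → ℝ))) Ω := by
    intro i
    exact ((ContinuousAlternatingMap.apply ℝ (Fin 2 → ℝ) ℝ
      (fun k : Fin 1 => (Pi.single (i.succAbove k) 1 : Fin 2 → ℝ))).contDiff).comp_contDiffOn hB
  have hfc : ∀ i, ContDiffOn ℝ 1 (f i) Ω := fun i => contDiffOn_const.mul (hfB i)
  have hfd : ∀ i, ∀ ξ ∈ Ω, HasFDerivAt (f i) (fderiv ℝ (f i) ξ) ξ := fun i ξ hξ =>
    (((hfc i).contDiffAt (hΩ.mem_nhds hξ)).differentiableAt (by norm_num)).hasFDerivAt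
  have hsum : ∀ ξ ∈ Ω, extDeriv B ξ (fun i => Pi.single i 1) =
      ∑ i, fderiv ℝ (f i) ξ (Pi.single i 1) := by
    intro ξ hξ
    rw [extDeriv_apply (hd ξ hξ)]
    refine Finset.sum_congr rfl fun i _ => ?_
    have hrem : (i.removeNth (fun i : Fin 2 => (Pi.single i 1 : Fin 2 → ℝ))) =
        fun k => Pi.single (i.succAbove k) 1 := by
      ext k l
      rfl
    rw [hrem]
    have hdiff : DifferentiableAt ℝ (fun ξ => B ξ (fun k : Fin 1 =>
        (Pi.single (i.succAbove k) 1 : Fin 2 → ℝ))) ξ :=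
      ((hfB i).contDiffAt (hΩ.mem_nhds hξ)).differentiableAt (by norm_num)
    have : fderiv ℝ (f i) ξ = ((-1 : ℝ) ^ (i : ℕ)) •
        fderiv ℝ (fun ξ => B ξ (fun k => Pi.single (i.succAbove k) 1)) ξ := by
      rw [hf]
      exact fderiv_const_mul hdiff _
    rw [this]
    simp
  rw [setIntegral_congr_fun measurableSet_Icc (fun ξ hξ => hsum ξ (hI hξ))]
  have key := integral_divergence_of_hasFDerivAt_off_countable' (0 : Fin 2 → ℝ) 1
    (by intro i; norm_num) f (fun i => fderiv ℝ (f i)) ∅ Set.countable_empty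
    (fun i => ((hfc i).continuousOn).mono hI)
    (fun ξ hξ i => hfd i ξ (hI ⟨fun j => (hξ.1 j (Set.mem_univ _)).1.le,
      fun j => (hξ.1 j (Set.mem_univ _)).2.le⟩))
    (by
      apply ContinuousOn.integrableOn_Icc
      refine continuousOn_finsetSum _ fun i _ => ?_
      exact (((hfc i).continuousOn_fderiv_of_isOpen hΩ (by norm_num)).mono hI).clm_apply
        continuousOn_const)
  rw [key, Fin.sum_univ_two]
  simp only [hf]
  have hz : ((0 : Fin 2 → ℝ) ∘ (0 : Fin 2).succAbove) = (0 : Fin 1 → ℝ) := rfl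
  have hz' : ((0 : Fin 2 → ℝ) ∘ (1 : Fin 2).succAbove) = (0 : Fin 1 → ℝ) := rfl
  have ho : ((1 : Fin 2 → ℝ) ∘ (0 : Fin 2).succAbove) = (1 : Fin 1 → ℝ) := rfl
  have ho' : ((1 : Fin 2 → ℝ) ∘ (1 : Fin 2).succAbove) = (1 : Fin 1 → ℝ) := rfl
  have ins0 : ∀ (t : ℝ) (η : Fin 1 → ℝ), ((0 : Fin 2).insertNth t η : Fin 2 → ℝ) = ![t, η 0] := by
    intro t η
    ext j
    fin_cases j <;> rfl
  have ins1 : ∀ (t : ℝ) (η : Fin 1 → ℝ), ((1 : Fin 2).insertNth t η : Fin 2 → ℝ) = ![η 0, t] := by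
    intro t η
    ext j
    fin_cases j <;> rfl
  have sa0 : (fun k : Fin 1 => (Pi.single ((0 : Fin 2).succAbove k) 1 : Fin 2 → ℝ)) =
      fun _ => Pi.single 1 1 := by
    ext k
    fin_cases k
    rfl
  have sa1 : (fun k : Fin 1 => (Pi.single ((1 : Fin 2).succAbove k) 1 : Fin 2 → ℝ)) =
      fun _ => Pi.single 0 1 := by
    ext k
    fin_cases k
    rfl
  simp only [sa0, sa1, Fin.val_zero, Fin.val_one, pow_zero, pow_one, one_mul, neg_mul,
    integral_neg]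
  simp only [hz, hz', ho, ho', ins0, ins1, Pi.zero_apply, Pi.one_apply]
  ring

/-- the integral of a one form over the ray from `(1, 0)` to the `k`-th vertex -/
noncomputable def rayI (β : (ℝ × ℂ) → (ℝ × ℂ) [⋀^Fin 1]→L[ℝ] ℝ) (k : ℕ) : ℝ :=
  ∫ η in Set.Icc (0 : Fin 1 → ℝ) 1,
    β (((1 : ℝ), (0 : ℂ)) + η 0 • (Wv k - ((1 : ℝ), (0 : ℂ))))
      (fun _ => Wv k - ((1 : ℝ), (0 : ℂ)))

/-- the integral of a one form over the `k`-th side -/
noncomputable def sideI (β : (ℝ × ℂ) → (ℝ × ℂ) [⋀^Fin 1]→L[ℝ] ℝ) (k : ℕ) : ℝ :=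
  ∫ η in Set.Icc (0 : Fin 1 → ℝ) 1,
    β (Wv k + η 0 • (Wv (k + 1) - Wv k)) (fun _ => Wv (k + 1) - Wv k)

theorem stokes_tri (β : (ℝ × ℂ) → (ℝ × ℂ) [⋀^Fin 1]→L[ℝ] ℝ)
    (hβ : ContDiffOn ℝ 1 β hU) (k : ℕ) :
    ∫ ξ in Set.Icc (0 : Fin 2 → ℝ) 1,
      extDeriv β (hCube k ξ) (fun i => fderiv ℝ (hCube k) ξ (Pi.single i 1)) =
      sideI β k - (rayI β (k + 1) - rayI β k) := by
  have hsm : ContDiff ℝ ∞ (hCube k) := contDiff_hCube k
  have hc : Continuous (hCube k) := hsm.continuous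
  have hopen : IsOpen (hCube k ⁻¹' hU) := isOpen_hU.preimage hc
  set B : (Fin 2 → ℝ) → (Fin 2 → ℝ) [⋀^Fin 1]→L[ℝ] ℝ := fun ξ =>
    (β (hCube k ξ)).compContinuousLinearMap (fderiv ℝ (hCube k) ξ) with hBdef
  have hB : ContDiffOn ℝ 1 B (hCube k ⁻¹' hU) := by
    set L1 : ((Fin 2 → ℝ) →L[ℝ] ℝ) ≃ₗᵢ[ℝ] ((Fin 2 → ℝ) [⋀^Fin 1]→L[ℝ] ℝ) :=
      ContinuousAlternatingMap.ofSubsingletonLIE (0 : Fin 1) with hL1
    set L2 : ((ℝ × ℂ) →L[ℝ] ℝ) ≃ₗᵢ[ℝ] ((ℝ × ℂ) [⋀^Fin 1]→L[ℝ] ℝ) :=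
      ContinuousAlternatingMap.ofSubsingletonLIE (0 : Fin 1) with hL2
    have e : B = fun ξ => L1 ((L2.symm (β (hCube k ξ))) ∘L fderiv ℝ (hCube k) ξ) := by
      funext ξ
      refine ContinuousAlternatingMap.ext fun v => ?_
      simp only [hBdef]
      show β (hCube k ξ) (fun i => fderiv ℝ (hCube k) ξ (v i)) =
        β (hCube k ξ) (fun _ => fderiv ℝ (hCube k) ξ (v 0))
      congr 1
      funext i
      rw [Subsingleton.elim i 0]
    rw [e]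
    have h1 : ContDiffOn ℝ 1 (fun ξ => β (hCube k ξ)) (hCube k ⁻¹' hU) :=
      hβ.comp (hsm.of_le (by norm_cast)).contDiffOn (fun ξ hξ => hξ)
    have h2 : ContDiffOn ℝ 1 (fun ξ => fderiv ℝ (hCube k) ξ) (hCube k ⁻¹' hU) :=
      (hsm.fderiv_right (m := 1) (by norm_cast)).contDiffOn
    exact L1.contDiff.comp_contDiffOn ((L2.symm.contDiff.comp_contDiffOn h1).clm_comp h2)
  have h := stokes_sq _ hopen (fun ξ hξ => hCube_mem k ξ hξ) B hB
  have hext : ∀ ξ ∈ Set.Icc (0 : Fin 2 → ℝ) 1, extDeriv β (hCube k ξ)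
      (fun i => fderiv ℝ (hCube k) ξ (Pi.single i 1)) =
      extDeriv B ξ (fun i => Pi.single i 1) := by
    intro ξ hξ
    have hd : DifferentiableAt ℝ β (hCube k ξ) :=
      (hβ.contDiffAt (isOpen_hU.mem_nhds (hCube_mem k ξ hξ))).differentiableAt (by norm_num)
    rw [hBdef, extDeriv_pullback (r := 2) hd (hsm.contDiffAt.of_le (by norm_cast)) (by simp)]
    rfl
  rw [setIntegral_congr_fun measurableSet_Icc hext, h]
  have b1 : ∀ η : Fin 1 → ℝ, B ![1, η 0] (fun _ => Pi.single 1 1) =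
      β (Wv k + η 0 • (Wv (k + 1) - Wv k)) (fun _ => Wv (k + 1) - Wv k) := by
    intro η
    have e1 : hCube k ![1, η 0] = Wv k + η 0 • (Wv (k + 1) - Wv k) := by
      simp only [hCube, Matrix.cons_val_zero, Matrix.cons_val_one]
      module
    have e2 : (fun _ : Fin 1 => fderiv ℝ (hCube k) ![1, η 0] (Pi.single 1 1)) =
        fun _ => Wv (k + 1) - Wv k := by
      funext _
      rw [fderiv_hCube]
      simp
    show β (hCube k ![1, η 0]) (fun _ => fderiv ℝ (hCube k) ![1, η 0] (Pi.single 1 1)) = _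
    rw [e2, e1]
  have b2 : ∀ η : Fin 1 → ℝ, B ![0, η 0] (fun _ => Pi.single 1 1) = 0 := by
    intro η
    have e2 : (fun _ : Fin 1 => fderiv ℝ (hCube k) ![0, η 0] (Pi.single 1 1)) =
        fun _ => 0 := by
      funext _
      rw [fderiv_hCube]
      simp
    show β (hCube k ![0, η 0]) (fun _ => fderiv ℝ (hCube k) ![0, η 0] (Pi.single 1 1)) = _
    rw [e2]
    exact (β _).map_coord_zero 0 rfl
  have b3 : ∀ η : Fin 1 → ℝ, B ![η 0, 1] (fun _ => Pi.single 0 1) =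
      β (((1 : ℝ), (0 : ℂ)) + η 0 • (Wv (k + 1) - ((1 : ℝ), (0 : ℂ))))
      (fun _ => Wv (k + 1) - ((1 : ℝ), (0 : ℂ))) := by
    intro η
    have e1 : hCube k ![η 0, 1] =
        ((1 : ℝ), (0 : ℂ)) + η 0 • (Wv (k + 1) - ((1 : ℝ), (0 : ℂ))) := by
      simp only [hCube, Matrix.cons_val_zero, Matrix.cons_val_one]
      module
    have e2 : (fun _ : Fin 1 => fderiv ℝ (hCube k) ![η 0, 1] (Pi.single 0 1)) =
        fun _ => Wv (k + 1) - ((1 : ℝ), (0 : ℂ)) := by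
      funext _
      rw [fderiv_hCube]
      simp
    show β (hCube k ![η 0, 1]) (fun _ => fderiv ℝ (hCube k) ![η 0, 1] (Pi.single 0 1)) = _
    rw [e2, e1]
  have b4 : ∀ η : Fin 1 → ℝ, B ![η 0, 0] (fun _ => Pi.single 0 1) =
      β (((1 : ℝ), (0 : ℂ)) + η 0 • (Wv k - ((1 : ℝ), (0 : ℂ))))
      (fun _ => Wv k - ((1 : ℝ), (0 : ℂ))) := by
    intro η
    have e1 : hCube k ![η 0, 0] =
        ((1 : ℝ), (0 : ℂ)) + η 0 • (Wv k - ((1 : ℝ), (0 : ℂ))) := by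
      simp only [hCube, Matrix.cons_val_zero, Matrix.cons_val_one]
      module
    have e2 : (fun _ : Fin 1 => fderiv ℝ (hCube k) ![η 0, 0] (Pi.single 0 1)) =
        fun _ => Wv k - ((1 : ℝ), (0 : ℂ)) := by
      funext _
      rw [fderiv_hCube]
      simp
    show β (hCube k ![η 0, 0]) (fun _ => fderiv ℝ (hCube k) ![η 0, 0] (Pi.single 0 1)) = _
    rw [e2, e1]
  simp only [b1, b2, b3, b4, integral_zero, sub_zero]
  rfl

theorem neg_one_form (L : (ℝ × ℂ) [⋀^Fin 1]→L[ℝ] ℝ) (v : ℝ × ℂ) :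
    L (fun _ => -v) = -L (fun _ => v) := by
  have h := L.toContinuousMultilinearMap.map_smul_univ (fun _ => (-1 : ℝ)) (fun _ => v)
  simp only [Finset.prod_const, Finset.card_univ, Fintype.card_fin, pow_one, neg_smul,
    one_smul] at h
  exact h

end Pool.Agent.HAF3
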