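import Pool.Agent.HAF3.JMan
import Pool.Agent.HaefligerClasses.CubeStokes

/-!
# Module TTOR: the torus `ℂ² / LL` and its fundamental cycle

The cube `tcube : ℝ⁴ → ℂ × ℂ` is a linear isomorphism that maps `ℤ⁴` onto `LL`. Closedness: pull the
form back by `tcube` (`extDeriv_pullback`, compare `stokes_tri` in `HAF2/HypC.lean`), apply
`integral_extDeriv_cube`; the two faces cancel because
`tcube (insertNth i 1 η) = tcube (insertNth i 0 η) + tv i` and `tv i ∈ LL`.
-/

namespace Pool.Agent.HAF3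

open Filter Topology MeasureTheory
open scoped ContDiff ComplexConjugate
open Pool.Agent.HaefligerClasses (QuotientManifold IsForm HaefligerStructure curvature
  torusElement integral_extDeriv_cube)
open Pool.Agent.HAF2

theorem tv_mem (i : Fin 4) : tv i ∈ LL := by
  rw [mem_LL]
  fin_cases i
  · exact ⟨⟨1, 0, rfl⟩, 0, 0, by simp [tv, eis]⟩
  · exact ⟨⟨0, 1, rfl⟩, 0, 0, by simp [tv, eis]⟩
  · exact ⟨⟨0, 0, by simp [tv, eis]⟩, 1, 0, rfl⟩
  · exact ⟨⟨0, 0, by simp [tv, eis]⟩, 0, 1, rfl⟩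

theorem torus_proper (x y : ℂ × ℂ) : ∃ V ∈ 𝓝 x, ∃ W ∈ 𝓝 y,
    {l : LL | ∃ z ∈ V ∩ Set.univ, z + (l : ℂ × ℂ) ∈ W}.Finite := by
  refine ⟨Metric.ball x 1, Metric.ball_mem_nhds _ one_pos, Metric.ball y 1,
    Metric.ball_mem_nhds _ one_pos, ?_⟩
  refine Set.Finite.of_finite_image (f := fun l : LL => (l : ℂ × ℂ))
    ((finite_LL (‖y‖ + ‖x‖ + 2)).subset ?_) Subtype.val_injective.injOn
  rintro _ ⟨l, ⟨z, ⟨hz1, -⟩, hz2⟩, rfl⟩
  refine ⟨l.2, ?_⟩
  have h1 : ‖z - x‖ < 1 := by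
    rw [← dist_eq_norm]
    exact Metric.mem_ball.1 hz1
  have h2 : ‖z + (l : ℂ × ℂ) - y‖ < 1 := by
    rw [← dist_eq_norm]
    exact Metric.mem_ball.1 hz2
  have e : (l : ℂ × ℂ) = (z + (l : ℂ × ℂ) - y) - (z - x) + (y - x) := by abel
  have h3 := norm_add_le ((z + (l : ℂ × ℂ) - y) - (z - x)) (y - x)
  have h4 := norm_sub_le (z + (l : ℂ × ℂ) - y) (z - x)
  have h5 := norm_sub_le y x
  show ‖(l : ℂ × ℂ)‖ ≤ ‖y‖ + ‖x‖ + 2
  rw [e]
  linarith

/-- the torus -/
noncomputable def tM : QuotientManifold (ℂ × ℂ) LL where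
  U := Set.univ
  isOpen_U := isOpen_univ
  act := fun l x => x + (l : ℂ × ℂ)
  smooth_act := fun l => (contDiff_id.add contDiff_const).contDiffOn
  mapsTo := fun l x hx => Set.mem_univ _
  act_zero := fun x _ => by
    show x + ((0 : LL) : ℂ × ℂ) = x
    rw [ZeroMemClass.coe_zero, add_zero]
  act_add := fun l l' x _ => by
    show x + ((l + l' : LL) : ℂ × ℂ) = x + (l' : ℂ × ℂ) + (l : ℂ × ℂ)
    rw [AddMemClass.coe_add]
    abel
  free := fun l x hx h => by
    have h1 : x + (l : ℂ × ℂ) = x + 0 := by rw [add_zero]; exact h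
    exact Subtype.ext (add_left_cancel h1)
  proper := fun x hx y _ => torus_proper x y

/-- `tcube` as a continuous linear map -/
noncomputable def tcubeCL : (Fin 4 → ℝ) →L[ℝ] (ℂ × ℂ) :=
  LinearMap.toContinuousLinearMap
    { toFun := tcube
      map_add' := by
        intro x y
        simp only [tcube, Pi.add_apply, add_smul, Finset.sum_add_distrib]
      map_smul' := by
        intro t x
        simp only [tcube, Pi.smul_apply, smul_eq_mul, mul_smul, Finset.smul_sum,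
          RingHom.id_apply] }

theorem tcubeCL_apply (η : Fin 4 → ℝ) : tcubeCL η = tcube η := rfl

theorem fderiv_tcube_eq (η : Fin 4 → ℝ) : fderiv ℝ tcube η = tcubeCL := by
  refine ContinuousLinearMap.ext fun v => ?_
  rw [fderiv_tcube, tcubeCL_apply]

theorem insertNth_one (i : Fin 4) (η : Fin 3 → ℝ) :
    (i.insertNth 1 η : Fin 4 → ℝ) = (i.insertNth 0 η : Fin 4 → ℝ) + Pi.single i 1 := by
  funext j
  rcases Fin.eq_self_or_eq_succAbove i j with rfl | ⟨k, rfl⟩
  · simp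
  · simp

theorem tcube_insertNth (i : Fin 4) (η : Fin 3 → ℝ) :
    tcube (i.insertNth 1 η : Fin 4 → ℝ) = tcube (i.insertNth 0 η : Fin 4 → ℝ) + tv i := by
  rw [insertNth_one, ← tcube_single, ← tcubeCL_apply, map_add, tcubeCL_apply, tcubeCL_apply]

theorem isForm1_tM {m : ℕ} (β : (ℂ × ℂ) → (ℂ × ℂ) [⋀^Fin m]→L[ℝ] ℝ) (hβ : IsForm1 tM β)
    (l : ℂ × ℂ) (hl : l ∈ LL) (x : ℂ × ℂ) : β (x + l) = β x := by
  have h := hβ.2 ⟨l, hl⟩ x (Set.mem_univ _)
  have e : fderiv ℝ (tM.act ⟨l, hl⟩) x = ContinuousLinearMap.id ℝ (ℂ × ℂ) := by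
    have h1 : HasFDerivAt (fun y : ℂ × ℂ => y + l) (ContinuousLinearMap.id ℝ (ℂ × ℂ)) x :=
      (hasFDerivAt_id x).add_const l
    exact h1.fderiv
  rw [e] at h
  exact h

theorem torus_closed (β : (ℂ × ℂ) → (ℂ × ℂ) [⋀^Fin 3]→L[ℝ] ℝ) (hβ : IsForm1 tM β) :
    ∫ ξ in Set.Icc (0 : Fin 4 → ℝ) 1,
      extDeriv β (tcube ξ) (fun i : Fin 4 => fderiv ℝ tcube ξ (Pi.single i 1)) = 0 := by
  have hβ1 : ContDiff ℝ 1 β := contDiffOn_univ.1 hβ.1
  set B : (Fin 4 → ℝ) → (Fin 4 → ℝ) [⋀^Fin 3]→L[ℝ] ℝ := fun ξ =>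
    (β (tcube ξ)).compContinuousLinearMap (fderiv ℝ tcube ξ) with hBdef
  have hB' : B = fun ξ => ContinuousAlternatingMap.compContinuousLinearMapCLM tcubeCL
      (β (tcube ξ)) := by
    funext ξ
    rw [hBdef]
    simp only [fderiv_tcube_eq]
    rfl
  have hB : ContDiff ℝ 1 B := by
    rw [hB']
    exact (ContinuousLinearMap.contDiff _).comp (hβ1.comp (contDiff_tcube.of_le (by norm_cast)))
  have hext : ∀ ξ : Fin 4 → ℝ, extDeriv β (tcube ξ)
      (fun i => fderiv ℝ tcube ξ (Pi.single i 1)) =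
      extDeriv B ξ (fun i => Pi.single i 1) := by
    intro ξ
    have hd : DifferentiableAt ℝ β (tcube ξ) := (hβ1.differentiable (by norm_num)) _
    rw [hBdef, extDeriv_pullback (r := 2) hd (contDiff_tcube.contDiffAt.of_le (by norm_cast))
      (by simp)]
    rfl
  simp only [hext]
  rw [integral_extDeriv_cube B hB]
  refine Finset.sum_eq_zero fun i _ => ?_
  have hf : ∀ η : Fin 3 → ℝ, B (i.insertNth 1 η) (fun k => Pi.single (i.succAbove k) 1) =
      B (i.insertNth 0 η) (fun k => Pi.single (i.succAbove k) 1) := by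
    intro η
    rw [hB']
    show (ContinuousAlternatingMap.compContinuousLinearMapCLM tcubeCL)
      (β (tcube (i.insertNth 1 η : Fin 4 → ℝ))) _ = (ContinuousAlternatingMap.compContinuousLinearMapCLM tcubeCL)
      (β (tcube (i.insertNth 0 η : Fin 4 → ℝ))) _
    rw [tcube_insertNth, isForm1_tM β hβ (tv i) (tv_mem i)]
  simp only [hf, sub_self, mul_zero]

/-- the fundamental cycle of the torus -/
noncomputable def tC : Cycle tM 4 where
  κ := Unit
  c := fun _ => tcube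
  smooth_c := fun _ => contDiff_tcube
  mem_c := fun _ _ _ => Set.mem_univ _
  closed := by
    intro m hm β hβ
    obtain rfl : m = 3 := by omega
    rw [Finset.univ_unique, Finset.sum_singleton]
    exact torus_closed β hβ

end Pool.Agent.HAF3
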