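import Pool.Agent.HAF3.JPair
import Pool.Agent.HAF3.TTor

/-!
# Module JCYC: the cycle of the twisted torus bundle

The cubes are `prodCube (hCube k) tcube`, `k < 12`. Closedness (compare `cpr_main` in
`HAF2/CycProd.lean`; the auxiliary lemmas are public in `HAF3/CprPub.lean`): an invariant form `β` on
`jM` is also an invariant form on `prodM hM0 tM`, where `hM0` is the cone with the trivial group
(`isForm1_prod`; the element `(0, v)` acts as `Additive.ofMul ⟨⟨1, v⟩, _⟩`). Write the exterior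
derivative as `cprB₁ + cprB₂` (`cpr_split`).
* The integral of `cprB₂` is zero because `tC` is a cycle (`cpr_closed₂`, `cpr_sum₂`).
* The integral of `cprB₁` over `ξ₁` is the integral of `extDeriv (bform β η)` (`cpr_ext₁`) over
  `hCube k`, which is `sideI (bform β η) k - (rayI (bform β η) (k+1) - rayI (bform β η) k)`
  (`stokes_tri`, for `C^1` forms that need not be invariant); the sum over `k < 12` of the ray terms
  is zero (`Wv_add_twelve`), and the integrals over `η` of the side terms cancel in pairs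
  (`side_pair`, see the proof of `hypC`).
-/

namespace Pool.Agent.HAF3

open Filter Topology MeasureTheory
open scoped ContDiff ComplexConjugate
open Pool.Agent.HaefligerClasses (QuotientManifold IsForm HaefligerStructure curvature
  torusElement)
open Pool.Agent.HAF2

/-- the cone with the trivial group -/
noncomputable def hM0 : QuotientManifold (ℝ × ℂ) PUnit where
  U := hU
  isOpen_U := isOpen_hU
  act := fun _ x => x
  smooth_act := fun _ => contDiffOn_id
  mapsTo := fun _ _ hx => hx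
  act_zero := fun _ _ => rfl
  act_add := fun _ _ _ _ => rfl
  free := fun _ _ _ _ => rfl
  proper := fun _ _ _ _ => ⟨Set.univ, univ_mem, Set.univ, univ_mem, Set.toFinite _⟩

theorem isForm1_prod {m : ℕ} (β : JE → JE [⋀^Fin m]→L[ℝ] ℝ) (hβ : IsForm1 jM β) :
    IsForm1 (prodM hM0 tM) β := by
  refine ⟨hβ.1, ?_⟩
  rintro ⟨u, l⟩ x hx
  have hmem : (⟨1, (l : ℂ × ℂ)⟩ : JA) ∈ LJ := ⟨LG.one_mem, l.2⟩
  have h : (prodM hM0 tM).act (u, l) = jM.act (Additive.ofMul ⟨_, hmem⟩) := by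
    funext P
    refine Prod.ext ?_ ?_
    · show P.1 = hact (1 : SU11) P.1
      rw [hact_one]
    · show P.2 + (l : ℂ × ℂ) = jl (1 : SU11) P.2 + (l : ℂ × ℂ)
      rw [jl_one]
  rw [h]
  exact hβ.2 _ x hx

/-- integrability of the integral over a segment -/
private theorem jcy_int (β : JE → JE [⋀^Fin 5]→L[ℝ] ℝ) (hβ : IsForm1 jM β) (P V : ℝ × ℂ)
    (hP : ∀ t : ℝ, 0 ≤ t → t ≤ 1 → P + t • V ∈ hU) :
    IntegrableOn (fun η : Fin 4 → ℝ => ∫ t in Set.Icc (0 : Fin 1 → ℝ) 1,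
      bform β η (P + t 0 • V) (fun _ => V)) (Set.Icc (0 : Fin 4 → ℝ) 1) := by
  have h1 : ContinuousOn (fun p : (Fin 1 → ℝ) × (Fin 4 → ℝ) =>
      β (P + p.1 0 • V, tcube p.2)) (Set.Icc 0 1 ×ˢ Set.Icc 0 1) := by
    refine hβ.1.continuousOn.comp ?_ ?_
    · refine Continuous.continuousOn ?_
      have ht : Continuous tcube := contDiff_tcube.continuous
      have e1 : Continuous (fun p : (Fin 1 → ℝ) × (Fin 4 → ℝ) => P + p.1 0 • V) :=
        continuous_const.add (((continuous_apply 0).comp continuous_fst).smul continuous_const)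
      exact e1.prodMk (ht.comp continuous_snd)
    · intro p hp
      exact ⟨hP _ (hp.1.1 0) (hp.1.2 0), Set.mem_univ _⟩
  have hc : ContinuousOn (fun p : (Fin 1 → ℝ) × (Fin 4 → ℝ) =>
      bform β p.2 (P + p.1 0 • V) (fun _ => V)) (Set.Icc 0 1 ×ˢ Set.Icc 0 1) := by
    have h2 := (cprIns (cprS₁ (p := 1) (N₂ := 4) (m := 5) rfl)
      (ContinuousLinearMap.inl ℝ (ℝ × ℂ) (ℂ × ℂ))
      (fun b => ((0 : ℝ × ℂ), tv b))).continuous.comp_continuousOn h1
    exact (ContinuousAlternatingMap.apply ℝ (ℝ × ℂ) ℝ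
      (fun _ : Fin 1 => V)).continuous.comp_continuousOn h2
  have h3 : Integrable (fun p : (Fin 1 → ℝ) × (Fin 4 → ℝ) =>
      bform β p.2 (P + p.1 0 • V) (fun _ => V))
      ((volume.restrict (Set.Icc (0 : Fin 1 → ℝ) 1)).prod
        (volume.restrict (Set.Icc (0 : Fin 4 → ℝ) 1))) := by
    rw [Measure.prod_restrict]
    exact hc.integrableOn_compact (isCompact_Icc.prod isCompact_Icc)
  exact h3.integral_prod_right

private theorem jcy_side_int (β : JE → JE [⋀^Fin 5]→L[ℝ] ℝ) (hβ : IsForm1 jM β) (k : ℕ) :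
    IntegrableOn (fun η : Fin 4 → ℝ => sideI (bform β η) k) (Set.Icc (0 : Fin 4 → ℝ) 1) :=
  jcy_int β hβ (Wv k) (Wv (k + 1) - Wv k) (side_mem k)

private theorem jcy_ray_int (β : JE → JE [⋀^Fin 5]→L[ℝ] ℝ) (hβ : IsForm1 jM β) (k : ℕ) :
    IntegrableOn (fun η : Fin 4 → ℝ => rayI (bform β η) k) (Set.Icc (0 : Fin 4 → ℝ) 1) := by
  refine jcy_int β hβ ((1 : ℝ), (0 : ℂ)) (Wv k - ((1 : ℝ), (0 : ℂ))) fun t h0 h1 => ?_
  have h := convex_hU base_mem (Wv_mem k) (sub_nonneg.2 h1) h0 (by ring)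
  have e : (1 - t) • ((1 : ℝ), (0 : ℂ)) + t • Wv k =
      ((1 : ℝ), (0 : ℂ)) + t • (Wv k - ((1 : ℝ), (0 : ℂ))) := by module
  rwa [e] at h

private theorem jcy_cprT (η : Fin 4 → ℝ) : cprT tcube η = tv := by
  funext i
  unfold cprT
  rw [fderiv_tcube, tcube_single]

theorem jC_closed (m : ℕ) (hm : m + 1 = 2 + 4) (β : JE → JE [⋀^Fin m]→L[ℝ] ℝ)
    (hβ : IsForm1 jM β) :
    ∑ k : Fin 12 × Unit, ∫ ξ in Set.Icc (0 : Fin (2 + 4) → ℝ) 1,
      extDeriv β (prodCube (hCube k.1.1) tcube ξ) (fun i =>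
        fderiv ℝ (prodCube (hCube k.1.1) tcube) ξ (Pi.single (Fin.cast hm i) 1)) = 0 := by
  obtain rfl : m = 5 := by omega
  have hβ' := isForm1_prod β hβ
  let G₁ : ℕ → (Fin 2 → ℝ) × (Fin 4 → ℝ) → ℝ := fun k p =>
    cprB₁ hm (fderiv ℝ β (hCube k p.1, tcube p.2)) (cprT (hCube k) p.1) (cprT tcube p.2)
  let G₂ : ℕ → (Fin 2 → ℝ) × (Fin 4 → ℝ) → ℝ := fun k p =>
    cprB₂ hm (fderiv ℝ β (hCube k p.1, tcube p.2)) (cprT (hCube k) p.1) (cprT tcube p.2)
  have hA : ∀ k : ℕ, ContinuousOn (fun p : (Fin 2 → ℝ) × (Fin 4 → ℝ) =>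
      fderiv ℝ β (hCube k p.1, tcube p.2)) (Set.Icc 0 1 ×ˢ Set.Icc 0 1) := fun k =>
    cpr_contA (M₁ := hM0) (M₂ := tM) (contDiff_hCube k) contDiff_tcube (hCube_mem k)
      (fun _ _ => Set.mem_univ _) hβ'
  have hG₁ : ∀ k, ContinuousOn (G₁ k) (Set.Icc 0 1 ×ˢ Set.Icc 0 1) := fun k =>
    cpr_cont₁ hm (contDiff_hCube k) contDiff_tcube (hA k)
  have hG₂ : ∀ k, ContinuousOn (G₂ k) (Set.Icc 0 1 ×ˢ Set.Icc 0 1) := fun k =>
    cpr_cont₂ hm (contDiff_hCube k) contDiff_tcube (hA k)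
  have hi₁ : ∀ k, IntegrableOn (fun ξ : Fin (2 + 4) → ℝ =>
      G₁ k (fun i => ξ (Fin.castAdd 4 i), fun i => ξ (Fin.natAdd 2 i)))
      (Set.Icc (0 : Fin (2 + 4) → ℝ) 1) := fun k =>
    (cpr_contCube (hG₁ k)).integrableOn_compact isCompact_Icc
  have hsplit : ∀ k : ℕ, ∫ ξ in Set.Icc (0 : Fin (2 + 4) → ℝ) 1,
      extDeriv β (prodCube (hCube k) tcube ξ)
        (fun i => fderiv ℝ (prodCube (hCube k) tcube) ξ
          (Pi.single (Fin.cast hm i) 1)) =
      (∫ ξ in Set.Icc (0 : Fin (2 + 4) → ℝ) 1,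
        G₁ k (fun i => ξ (Fin.castAdd 4 i), fun i => ξ (Fin.natAdd 2 i))) +
      ∫ ξ in Set.Icc (0 : Fin (2 + 4) → ℝ) 1,
        G₂ k (fun i => ξ (Fin.castAdd 4 i), fun i => ξ (Fin.natAdd 2 i)) := by
    intro k
    rw [← integral_add (hi₁ k) ((cpr_contCube (hG₂ k)).integrableOn_compact isCompact_Icc)]
    refine setIntegral_congr_fun measurableSet_Icc fun ξ _ => ?_
    have hW : (fun i => fderiv ℝ (prodCube (hCube k) tcube) ξ
          (Pi.single (Fin.cast hm i) 1)) = fun i : Fin (5 + 1) =>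
        cprV (cprT (hCube k) (fun i => ξ (Fin.castAdd 4 i)))
          (cprT tcube (fun i => ξ (Fin.natAdd 2 i))) (Fin.cast hm i) := by
      funext i
      generalize Fin.cast hm i = a
      refine Fin.addCases (fun j => ?_) (fun j => ?_) a
      · rw [fderiv_prodCube_castAdd _ _ (contDiff_hCube k) contDiff_tcube, cprV_left]
        rfl
      · rw [fderiv_prodCube_natAdd _ _ (contDiff_hCube k) contDiff_tcube, cprV_right]
        rfl
    rw [hW]
    unfold extDeriv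
    exact cpr_split hm _ _
  have s₂ : ∀ k : ℕ, ∫ ξ in Set.Icc (0 : Fin (2 + 4) → ℝ) 1,
        G₂ k (fun i => ξ (Fin.castAdd 4 i), fun i => ξ (Fin.natAdd 2 i)) = 0 := by
    intro k
    have h := cpr_sum₂ (κ := Unit) (fun _ => G₂ k) (fun _ => hG₂ k) (fun x hx =>
      cpr_closed₂ (M₁ := hM0) tC hm hβ' (x := hCube k x) (hCube_mem k x hx) (cprT (hCube k) x))
    rw [Fintype.sum_unique] at h
    exact h
  have s₁ : ∀ k : ℕ, ∫ ξ in Set.Icc (0 : Fin (2 + 4) → ℝ) 1,
        G₁ k (fun i => ξ (Fin.castAdd 4 i), fun i => ξ (Fin.natAdd 2 i)) =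
      (∫ η in Set.Icc (0 : Fin 4 → ℝ) 1, sideI (bform β η) k) -
        ((∫ η in Set.Icc (0 : Fin 4 → ℝ) 1, rayI (bform β η) (k + 1)) -
          ∫ η in Set.Icc (0 : Fin 4 → ℝ) 1, rayI (bform β η) k) := by
    intro k
    have hr : IntegrableOn (fun η : Fin 4 → ℝ => rayI (bform β η) (k + 1) - rayI (bform β η) k)
        (Set.Icc (0 : Fin 4 → ℝ) 1) := (jcy_ray_int β hβ (k + 1)).sub (jcy_ray_int β hβ k)
    rw [← integral_sub (jcy_ray_int β hβ (k + 1)) (jcy_ray_int β hβ k),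
      ← integral_sub (jcy_side_int β hβ k) hr, integral_cube_add' 2 4 _ (hi₁ k)]
    refine setIntegral_congr_fun measurableSet_Icc fun η hη => ?_
    simp only [Fin.append_left, Fin.append_right]
    have hf : ContDiffOn ℝ 1 (bform β η) hU := by
      have := cpr_form₁ (M₁ := hM0) (M₂ := tM) (p := 1) (N₂ := 4) (m := 5) rfl hβ'
        (y := tcube η) (Set.mem_univ _) tv
      exact this.1
    rw [← stokes_tri (bform β η) hf k]
    refine setIntegral_congr_fun measurableSet_Icc fun ξ hξ => ?_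
    have h := cpr_ext₁ (M₁ := hM0) (M₂ := tM) (p := 1) (N₂ := 4) (m := 5) hm rfl hβ'
      (x := hCube k ξ) (hCube_mem k ξ hξ) (y := tcube η) (Set.mem_univ _)
      (cprT (hCube k) ξ) (cprT tcube η)
    rw [jcy_cprT] at h
    show cprB₁ hm (fderiv ℝ β (hCube k ξ, tcube η)) (cprT (hCube k) ξ) (cprT tcube η) = _
    rw [jcy_cprT]
    exact h.symm
  have hsum : ∀ k : Fin 12, ∑ _j : Unit, (∫ ξ in Set.Icc (0 : Fin (2 + 4) → ℝ) 1,
      extDeriv β (prodCube (hCube k.1) tcube ξ)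
        (fun i => fderiv ℝ (prodCube (hCube k.1) tcube) ξ
          (Pi.single (Fin.cast hm i) 1))) =
      (fun j : ℕ => (∫ η in Set.Icc (0 : Fin 4 → ℝ) 1, sideI (bform β η) j) -
        ((∫ η in Set.Icc (0 : Fin 4 → ℝ) 1, rayI (bform β η) (j + 1)) -
          ∫ η in Set.Icc (0 : Fin 4 → ℝ) 1, rayI (bform β η) j)) k.1 := by
    intro k
    rw [Fintype.sum_unique, hsplit k.1, s₂ k.1, add_zero]
    exact s₁ k.1
  rw [Fintype.sum_prod_type]
  refine (Finset.sum_congr rfl fun k _ => hsum k).trans ?_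
  rw [Fin.sum_univ_eq_sum_range (fun j : ℕ =>
    (∫ η in Set.Icc (0 : Fin 4 → ℝ) 1, sideI (bform β η) j) -
        ((∫ η in Set.Icc (0 : Fin 4 → ℝ) 1, rayI (bform β η) (j + 1)) -
          ∫ η in Set.Icc (0 : Fin 4 → ℝ) 1, rayI (bform β η) j)) 12]
  have w12 : Wv 12 = Wv 0 := Wv_add_twelve 0
  have w13 : Wv 13 = Wv 1 := Wv_add_twelve 1
  have w14 : Wv 14 = Wv 2 := Wv_add_twelve 2
  have w15 : Wv 15 = Wv 3 := Wv_add_twelve 3
  set a : ℕ → ℝ := fun j => ∫ η in Set.Icc (0 : Fin 4 → ℝ) 1, sideI (bform β η) j with ha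
  set b : ℕ → ℝ := fun j => ∫ η in Set.Icc (0 : Fin 4 → ℝ) 1, rayI (bform β η) j with hb
  have r12 : b 12 = b 0 := by
    have : ∀ η, rayI (bform β η) 12 = rayI (bform β η) 0 := by
      intro η
      simp only [rayI, w12]
    simp only [hb, this]
  have p12 : a 12 = a 0 := by
    have : ∀ η, sideI (bform β η) 12 = sideI (bform β η) 0 := by
      intro η
      simp only [sideI, w12, w13]
    simp only [ha, this]
  have p14 : a 14 = a 2 := by
    have : ∀ η, sideI (bform β η) 14 = sideI (bform β η) 2 := by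
      intro η
      simp only [sideI, w14, w15]
    simp only [ha, this]
  have q0 : a 1 = -a 4 := side_pair β hβ 0
  have q1 : a 3 = -a 6 := side_pair β hβ 1
  have q2 : a 5 = -a 8 := side_pair β hβ 2
  have q3 : a 7 = -a 10 := side_pair β hβ 3
  have q4 : a 9 = -a 12 := side_pair β hβ 4
  have q5 : a 11 = -a 14 := side_pair β hβ 5
  show ∑ j ∈ Finset.range 12, (a j - (b (j + 1) - b j)) = 0
  simp only [Finset.sum_range_succ, Finset.sum_range_zero]
  norm_num
  linarith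

/-- the cycle -/
noncomputable def jC : Cycle jM (2 + 4) where
  κ := Fin 12 × Unit
  c := fun k => prodCube (hCube k.1.1) tcube
  smooth_c := fun k => cpr_smooth _ _ (contDiff_hCube k.1.1) contDiff_tcube
  mem_c := fun k ξ hξ => ⟨hCube_mem k.1.1 _ (cpr_mem hξ).1, Set.mem_univ _⟩
  closed := jC_closed

end Pool.Agent.HAF3
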