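import Pool.Agent.HAF2.HypL
import Pool.Agent.HAF2.CycProd

/-!
# The twisted torus bundle: definitions

Pairs `X = (α, β)` of complex numbers are the real four dimensional algebra of the matrices
`(α, β; conj β, conj α)`. The group `SU11` acts on it by left multiplication `jl g`. There are two
equivariant projections onto the plane `ℂ` with the action `hvact g`:
`jz X = α + β` and `jw X = I (α - β)`.
-/

namespace Pool.Agent.HAF3

open Filter Topology MeasureTheory
open scoped ContDiff ComplexConjugate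
open Pool.Agent.HaefligerClasses (QuotientManifold IsForm HaefligerStructure curvature
  torusElement)
open Pool.Agent.HAF2

/-- left multiplication -/
noncomputable def jl (g : SU11) (X : ℂ × ℂ) : ℂ × ℂ :=
  (g.a * X.1 + g.b * conj X.2, g.a * X.2 + g.b * conj X.1)

theorem jl_mul (g h : SU11) (X : ℂ × ℂ) : jl (g * h) X = jl g (jl h X) := by
  unfold jl
  refine Prod.ext ?_ ?_
  · simp only [mul_a, mul_b, map_add, map_mul, Complex.conj_conj]
    ring
  · simp only [mul_a, mul_b, map_add, map_mul, Complex.conj_conj]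
    ring

@[simp] theorem jl_one (X : ℂ × ℂ) : jl 1 X = X := by
  unfold jl
  refine Prod.ext ?_ ?_ <;> simp

/-- left multiplication as a continuous linear map -/
noncomputable def jlL (g : SU11) : (ℂ × ℂ) →L[ℝ] (ℂ × ℂ) :=
  LinearMap.toContinuousLinearMap
    { toFun := jl g
      map_add' := by
        intro X Y
        unfold jl
        refine Prod.ext ?_ ?_
        · simp only [Prod.fst_add, Prod.snd_add, map_add]
          ring
        · simp only [Prod.fst_add, Prod.snd_add, map_add]
          ring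
      map_smul' := by
        intro t X
        unfold jl
        refine Prod.ext ?_ ?_
        · simp only [Prod.smul_fst, Prod.smul_snd, RingHom.id_apply,
            Complex.real_smul, map_mul, Complex.conj_ofReal]
          ring
        · simp only [Prod.smul_fst, Prod.smul_snd, RingHom.id_apply,
            Complex.real_smul, map_mul, Complex.conj_ofReal]
          ring }

@[simp] theorem jlL_apply (g : SU11) (X : ℂ × ℂ) : jlL g X = jl g X := rfl

theorem jl_add (g : SU11) (X Y : ℂ × ℂ) : jl g (X + Y) = jl g X + jl g Y :=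
  (jlL g).map_add X Y

theorem jl_neg (g : SU11) (X : ℂ × ℂ) : jl g (-X) = -jl g X :=
  (jlL g).map_neg X

theorem jl_zero (g : SU11) : jl g 0 = 0 := (jlL g).map_zero

/-- the first projection -/
noncomputable def jz : (ℂ × ℂ) →L[ℝ] ℂ :=
  ContinuousLinearMap.fst ℝ ℂ ℂ + ContinuousLinearMap.snd ℝ ℂ ℂ

/-- the second projection -/
noncomputable def jw : (ℂ × ℂ) →L[ℝ] ℂ :=
  mulC Complex.I ∘L (ContinuousLinearMap.fst ℝ ℂ ℂ - ContinuousLinearMap.snd ℝ ℂ ℂ)

@[simp] theorem jz_apply (X : ℂ × ℂ) : jz X = X.1 + X.2 := rfl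

@[simp] theorem jw_apply (X : ℂ × ℂ) : jw X = Complex.I * (X.1 - X.2) := rfl

theorem jz_jl (g : SU11) (X : ℂ × ℂ) : jz (jl g X) = hvact g (jz X) := by
  simp only [jz_apply, jl, hvact, map_add]
  ring

theorem jw_jl (g : SU11) (X : ℂ × ℂ) : jw (jl g X) = hvact g (jw X) := by
  simp only [jw_apply, jl, hvact, map_sub, map_mul, Complex.conj_I]
  ring

/-- the symplectic form of the plane -/
noncomputable def om (v w : ℂ) : ℝ := (conj v * w).im

theorem om_hvact (g : SU11) (v w : ℂ) : om (hvact g v) (hvact g w) = om v w := by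
  have h := g.norm_eq
  simp only [Complex.normSq_apply] at h
  simp only [om, hvact, Complex.mul_im, Complex.conj_re, Complex.conj_im, Complex.add_re,
    Complex.add_im, Complex.mul_re]
  linear_combination (v.re * w.im - v.im * w.re) * h

/-- the lattice -/
noncomputable def LL : AddSubgroup (ℂ × ℂ) where
  carrier := {X | (∃ x y : ℤ, X.1 = eis x y) ∧ ∃ p q : ℤ, X.2 = (Real.sqrt 6 : ℂ) * eis p q}
  add_mem' := by
    rintro X Y ⟨⟨x, y, h1⟩, p, q, h2⟩ ⟨⟨x', y', h3⟩, p', q', h4⟩
    refine ⟨⟨x + x', y + y', ?_⟩, p + p', q + q', ?_⟩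
    · rw [Prod.fst_add, h1, h3, eis_add]
    · rw [Prod.snd_add, h2, h4, ← mul_add, eis_add]
  zero_mem' := by
    refine ⟨⟨0, 0, ?_⟩, 0, 0, ?_⟩
    · simp [eis]
    · simp [eis]
  neg_mem' := by
    rintro X ⟨⟨x, y, h1⟩, p, q, h2⟩
    refine ⟨⟨-x, -y, ?_⟩, -p, -q, ?_⟩
    · rw [Prod.fst_neg, h1, eis_neg]
    · rw [Prod.snd_neg, h2, ← eis_neg, mul_neg]

theorem mem_LL (X : ℂ × ℂ) : X ∈ LL ↔
    (∃ x y : ℤ, X.1 = eis x y) ∧ ∃ p q : ℤ, X.2 = (Real.sqrt 6 : ℂ) * eis p q := Iff.rfl

/-- the lattice is invariant under the arithmetic group -/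
theorem jl_mem_LL (g : SU11) (hg : g ∈ LG) (X : ℂ × ℂ) (hX : X ∈ LL) : jl g X ∈ LL := by
  obtain ⟨⟨x, y, ha⟩, p, q, hb⟩ := hg
  obtain ⟨⟨r, s, h1⟩, t, u, h2⟩ := hX
  rw [← eis_one_two] at ha
  have h6 := sqrt_six_sq
  constructor
  · have key : (jl g X).1 = eis r s + (eis 1 2 * (eis x y * eis r s) + eis 1 2 * (eis x y * eis r s))
        + 6 * (eis p q * conj (eis t u)) := by
      show g.a * X.1 + g.b * conj X.2 = _
      rw [ha, hb, h1, h2, map_mul, Complex.conj_ofReal]
      linear_combination (eis p q * conj (eis t u)) * h6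
    have e6 : (6 : ℂ) = eis 6 0 := by simp [eis]
    rw [e6, eis_conj, eis_mul, eis_mul, eis_mul, eis_mul, eis_add, eis_add, eis_add] at key
    exact ⟨_, _, key⟩
  · have key : (jl g X).2 = (Real.sqrt 6 : ℂ) * (eis t u +
        (eis 1 2 * (eis x y * eis t u) + eis 1 2 * (eis x y * eis t u)) +
        eis p q * conj (eis r s)) := by
      show g.a * X.2 + g.b * conj X.1 = _
      rw [ha, hb, h1, h2]
      ring
    rw [eis_conj, eis_mul, eis_mul, eis_mul, eis_add, eis_add, eis_add] at key
    exact ⟨_, _, key⟩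

/-- the affine maps `X ↦ g X + v` -/
@[ext] structure JA where
  g : SU11
  v : ℂ × ℂ

noncomputable instance : Mul JA where
  mul x y := ⟨x.g * y.g, jl x.g y.v + x.v⟩

noncomputable instance : One JA where
  one := ⟨1, 0⟩

noncomputable instance : Inv JA where
  inv x := ⟨x.g⁻¹, -jl x.g⁻¹ x.v⟩

theorem JA_mul_g (x y : JA) : (x * y).g = x.g * y.g := rfl

theorem JA_mul_v (x y : JA) : (x * y).v = jl x.g y.v + x.v := rfl

@[simp] theorem JA_one_g : (1 : JA).g = 1 := rfl

@[simp] theorem JA_one_v : (1 : JA).v = 0 := rfl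

@[simp] theorem JA_inv_g (x : JA) : x⁻¹.g = x.g⁻¹ := rfl

@[simp] theorem JA_inv_v (x : JA) : x⁻¹.v = -jl x.g⁻¹ x.v := rfl

noncomputable instance : Group JA :=
  Group.ofLeftAxioms
    (fun x y z => by
      apply JA.ext
      · simp only [JA_mul_g, mul_assoc]
      · simp only [JA_mul_v, JA_mul_g, jl_mul, jl_add]
        abel)
    (fun x => by
      apply JA.ext
      · simp only [JA_mul_g, JA_one_g, one_mul]
      · simp only [JA_mul_v, JA_one_g, JA_one_v, jl_one, add_zero])
    (fun x => by
      apply JA.ext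
      · simp only [JA_mul_g, JA_inv_g, inv_mul_cancel, JA_one_g]
      · simp only [JA_mul_v, JA_inv_g, JA_inv_v, JA_one_v]
        abel)

/-- the group of the bundle -/
noncomputable def LJ : Subgroup JA where
  carrier := {x | x.g ∈ LG ∧ x.v ∈ LL}
  mul_mem' := by
    rintro x y ⟨h1, h2⟩ ⟨h3, h4⟩
    exact ⟨LG.mul_mem h1 h3, LL.add_mem (jl_mem_LL x.g h1 y.v h4) h2⟩
  one_mem' := ⟨LG.one_mem, LL.zero_mem⟩
  inv_mem' := by
    rintro x ⟨h1, h2⟩
    exact ⟨LG.inv_mem h1, LL.neg_mem (jl_mem_LL _ (LG.inv_mem h1) _ h2)⟩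

/-- the same group, written additively -/
abbrev JLam : Type := Additive LJ

/-- the affine map of an element -/
def jel (l : JLam) : JA := ((Additive.toMul l : LJ) : JA)

theorem jel_zero : jel 0 = 1 := rfl

theorem jel_add (l l' : JLam) : jel (l + l') = jel l * jel l' := rfl

theorem jel_g_mem (l : JLam) : (jel l).g ∈ LG := (Additive.toMul l : LJ).2.1

theorem jel_v_mem (l : JLam) : (jel l).v ∈ LL := (Additive.toMul l : LJ).2.2

theorem jel_injective : Function.Injective jel := fun _ _ h =>
  Additive.toMul.injective (Subtype.ext h)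

/-- the space -/
abbrev JE : Type := (ℝ × ℂ) × (ℂ × ℂ)

/-- the action of the affine maps -/
noncomputable def jact (x : JA) (P : JE) : JE := (hact x.g P.1, jl x.g P.2 + x.v)

/-- its linear part -/
noncomputable def jactL (x : JA) : JE →L[ℝ] JE := (hactL x.g).prodMap (jlL x.g)

@[simp] theorem jactL_apply (x : JA) (P : JE) : jactL x P = (hact x.g P.1, jl x.g P.2) := rfl

theorem fderiv_jact (x : JA) (P : JE) : fderiv ℝ (jact x) P = jactL x := by
  have h : jact x = fun Y => jactL x Y + ((0 : ℝ × ℂ), x.v) := by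
    funext Y
    refine Prod.ext ?_ rfl
    show hact x.g Y.1 = hact x.g Y.1 + 0
    rw [add_zero]
  rw [h]
  exact ((jactL x).hasFDerivAt.add_const _).fderiv

/-- the constant of the line bundle -/
noncomputable def jc : ℝ := 4 * Real.pi / Real.sqrt 6

/-- the holonomy of the line bundle: `exp (I (c om (w, z) + c / 2 om (w, a)))` -/
noncomputable def jJ (x : JA) (P : JE) : ℂ :=
  Complex.exp (Complex.I * ((jc * om (jw x.v) (hvact x.g (jz P.2)) +
    jc / 2 * om (jw x.v) (jz x.v) : ℝ) : ℂ))

/-- the symplectic form of the line bundle -/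
noncomputable def jom (U W : ℂ × ℂ) : ℝ := om (jw U) (jz W) - om (jw W) (jz U)

/-- the connection form `- c om (w, dz)` of the line bundle, as a linear function of the point -/
noncomputable def jaL : JE →L[ℝ] (JE →L[ℝ] ℝ) :=
  LinearMap.toContinuousLinearMap
    { toFun := fun P => (-jc) • (Complex.imCLM ∘L mulC (conj (jw P.2)) ∘L jz ∘L
        ContinuousLinearMap.snd ℝ (ℝ × ℂ) (ℂ × ℂ))
      map_add' := by
        intro P Q
        refine ContinuousLinearMap.ext fun W => ?_
        simp only [Prod.snd_add, map_add, smul_apply,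
          ContinuousLinearMap.comp_apply, add_apply, mulC_apply, smul_eq_mul,
          Complex.imCLM_apply, add_mul]
        ring
      map_smul' := by
        intro t P
        refine ContinuousLinearMap.ext fun W => ?_
        simp only [Prod.smul_snd, map_smul, smul_apply,
          ContinuousLinearMap.comp_apply, mulC_apply, smul_eq_mul, RingHom.id_apply,
          Complex.imCLM_apply, Complex.real_smul, map_mul, Complex.conj_ofReal, mul_assoc,
          Complex.im_ofReal_mul]
        ring }

theorem jaL_apply (P W : JE) : jaL P W = -jc * om (jw P.2) (jz W.2) := rfl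

/-- the vectors of the basis of the lattice -/
noncomputable def tv (i : Fin 4) : ℂ × ℂ :=
  ![(eis 1 0, 0), (eis 0 1, 0), (0, (Real.sqrt 6 : ℂ) * eis 1 0), (0, (Real.sqrt 6 : ℂ) * eis 0 1)] i

/-- the fundamental cube of the lattice -/
noncomputable def tcube (η : Fin 4 → ℝ) : ℂ × ℂ := ∑ i, η i • tv i

/-- the cube as a linear isomorphism -/
theorem contDiff_tcube : ContDiff ℝ ∞ tcube := by
  unfold tcube
  fun_prop

theorem fderiv_tcube (η v : Fin 4 → ℝ) : fderiv ℝ tcube η v = tcube v := by
  have h : IsLinearMap ℝ tcube := by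
    constructor
    · intro x y
      simp only [tcube, Pi.add_apply, add_smul, Finset.sum_add_distrib]
    · intro t x
      simp only [tcube, Pi.smul_apply, smul_eq_mul, mul_smul, Finset.smul_sum]
  have h2 : tcube = fun η => (LinearMap.toContinuousLinearMap (h.mk' tcube)) η := rfl
  rw [h2, ContinuousLinearMap.fderiv]

theorem tcube_single (i : Fin 4) : tcube (Pi.single i 1) = tv i := by
  unfold tcube
  rw [Finset.sum_eq_single i]
  · simp
  · intro j _ hj
    simp [Pi.single_eq_of_ne hj]
  · intro h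
    exact absurd (Finset.mem_univ i) h

end Pool.Agent.HAF3
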