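import Pool.Agent.HAF3.JMan

/-!
# Module JLIN: the line bundle

* `jom_lattice`: for `X = (α, β)`, `Y = (γ, δ)` one has
  `jom X Y = 2 (re (conj β * γ) - re (conj α * δ))`; for lattice vectors `conj β γ` and
  `conj α δ` are `√6` times Eisenstein integers, whose real parts are half integers, so
  `jom X Y ∈ √6 ℤ` and `jc / 2 * jom X Y ∈ 2 π ℤ`.
* `jJ_mul`: the exponent of `jJ (x * y) P` is
  `c om (jw (g w + v), hvact (g h) z) + c/2 om (jw (g w + v), jz (g w + v))` with `x = (g, v)`,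
  `y = (h, w)`, `z = jz P.2`; expand with `jw_jl`, `jz_jl`, `om_hvact` (`om` is bilinear); the sum of
  the exponents of `jJ x (jact y P)` and `jJ y P` differs from it by
  `c om (jw v, jz (g w)) - c/2 (om (jw v, jz (g w)) + om (jw (g w), jz v)) = c/2 jom v (g w)`.
* `a_compat`: `jJ x` is `exp (I φ)` with `φ` affine, `Dφ U = c om (jw v, hvact g (jz U.2))`, and
  `jaL P U - jaL (g P + v) (g U) = c om (jw v, hvact g (jz U.2))`.
-/

namespace Pool.Agent.HAF3

open Filter Topology MeasureTheory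
open scoped ContDiff ComplexConjugate
open Pool.Agent.HaefligerClasses (QuotientManifold IsForm HaefligerStructure curvature
  torusElement)
open Pool.Agent.HAF2

theorem jom_eq (X Y : ℂ × ℂ) :
    jom X Y = 2 * ((conj X.2 * Y.1).re - (conj X.1 * Y.2).re) := by
  simp only [jom, om, jw_apply, jz_apply, map_mul, map_sub, Complex.conj_I, Complex.mul_im,
    Complex.mul_re, Complex.conj_re, Complex.conj_im, Complex.add_re, Complex.add_im,
    Complex.sub_re, Complex.sub_im, Complex.neg_re, Complex.neg_im, Complex.I_re, Complex.I_im]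
  ring

theorem jlin_re_conj_mul (p q r s : ℤ) :
    ∃ n : ℤ, 2 * (conj (eis p q) * eis r s).re = n := by
  rw [eis_conj, eis_mul, eis_re]
  refine ⟨2 * ((p - q) * r - -q * s) - ((p - q) * s + -q * r - -q * s), ?_⟩
  push_cast
  ring

theorem jom_lattice (X Y : ℂ × ℂ) (hX : X ∈ LL) (hY : Y ∈ LL) :
    ∃ n : ℤ, jc / 2 * jom X Y = 2 * Real.pi * n := by
  obtain ⟨⟨x, y, h1⟩, p, q, h2⟩ := hX
  obtain ⟨⟨r, s, h3⟩, t, u, h4⟩ := hY
  obtain ⟨m, hm⟩ := jlin_re_conj_mul p q r s
  obtain ⟨n, hn⟩ := jlin_re_conj_mul x y t u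
  have h6 : Real.sqrt 6 ≠ 0 := by
    have : (0 : ℝ) < Real.sqrt 6 := Real.sqrt_pos.2 (by norm_num)
    exact this.ne'
  refine ⟨m - n, ?_⟩
  rw [jom_eq, h1, h2, h3, h4]
  have e1 : (conj ((Real.sqrt 6 : ℂ) * eis p q) * eis r s).re =
      Real.sqrt 6 * (conj (eis p q) * eis r s).re := by
    rw [map_mul, Complex.conj_ofReal, mul_assoc, Complex.re_ofReal_mul]
  have e2 : (conj (eis x y) * ((Real.sqrt 6 : ℂ) * eis t u)).re =
      Real.sqrt 6 * (conj (eis x y) * eis t u).re := by
    rw [mul_left_comm, Complex.re_ofReal_mul]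
  rw [e1, e2, jc]
  have e3 : 2 * (Real.sqrt 6 * (conj (eis p q) * eis r s).re -
      Real.sqrt 6 * (conj (eis x y) * eis t u).re) = Real.sqrt 6 * ((m : ℝ) - n) := by
    rw [← hm, ← hn]
    ring
  rw [e3]
  push_cast
  field_simp
  ring

theorem om_add_left (v v' w : ℂ) : om (v + v') w = om v w + om v' w := by
  simp only [om, map_add, add_mul, Complex.add_im]

theorem om_add_right (v w w' : ℂ) : om v (w + w') = om v w + om v w' := by
  simp only [om, mul_add, Complex.add_im]

theorem om_antisymm (v w : ℂ) : om v w = -om w v := by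
  simp only [om, Complex.mul_im, Complex.conj_re, Complex.conj_im]
  ring

theorem jlin_hvact_mul (g h : SU11) (v : ℂ) : hvact (g * h) v = hvact g (hvact h v) := by
  simp only [hvact, mul_a, mul_b, map_add, map_mul, Complex.conj_conj]
  ring

theorem jlin_hvact_add (g : SU11) (v w : ℂ) : hvact g (v + w) = hvact g v + hvact g w := by
  simp only [hvact, map_add]
  ring

theorem jJ_mul (x y : JA) (hx : x ∈ LJ) (hy : y ∈ LJ) (P : JE) :
    jJ (x * y) P = jJ x (jact y P) * jJ y P := by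
  obtain ⟨n, hn⟩ := jom_lattice x.v (jl x.g y.v) hx.2 (jl_mem_LL x.g hx.1 y.v hy.2)
  have key : (jc * om (jw x.v) (hvact x.g (jz (jact y P).2)) + jc / 2 * om (jw x.v) (jz x.v)) +
      (jc * om (jw y.v) (hvact y.g (jz P.2)) + jc / 2 * om (jw y.v) (jz y.v)) =
      (jc * om (jw (x * y).v) (hvact (x * y).g (jz P.2)) +
        jc / 2 * om (jw (x * y).v) (jz (x * y).v)) + 2 * Real.pi * n := by
    rw [← hn, jom]
    have e1 : (jact y P).2 = jl y.g P.2 + y.v := rfl
    rw [e1, JA_mul_g, JA_mul_v, map_add, map_add, map_add, jz_jl, jz_jl, jw_jl, jlin_hvact_mul,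
      jlin_hvact_add, om_add_right, om_add_left, om_add_left, om_add_right, om_add_right,
      om_hvact, om_hvact]
    ring
  have e2 : Complex.exp (Complex.I * ((2 * Real.pi * n : ℝ) : ℂ)) = 1 := by
    rw [Complex.exp_eq_one_iff]
    refine ⟨n, ?_⟩
    push_cast
    ring
  have e3 : ∀ t : ℝ, Complex.exp (Complex.I * ((t + 2 * Real.pi * n : ℝ) : ℂ)) =
      Complex.exp (Complex.I * (t : ℂ)) := by
    intro t
    rw [Complex.ofReal_add, mul_add, Complex.exp_add, e2, mul_one]
  rw [jJ, jJ, jJ, ← Complex.exp_add, ← mul_add, ← Complex.ofReal_add, key, e3]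

theorem norm_jJ (x : JA) (P : JE) : ‖jJ x P‖ = 1 := by
  rw [jJ, mul_comm, Complex.norm_exp_ofReal_mul_I]

/-- the linear part of the exponent -/
noncomputable def jphiL (x : JA) : JE →L[ℝ] ℝ :=
  jc • (Complex.imCLM ∘L mulC (conj (jw x.v)) ∘L (jz ∘L jlL x.g) ∘L
    ContinuousLinearMap.snd ℝ (ℝ × ℂ) (ℂ × ℂ))

theorem jphiL_apply (x : JA) (P : JE) :
    jphiL x P = jc * om (jw x.v) (hvact x.g (jz P.2)) := by
  have h : jphiL x P = jc * (conj (jw x.v) * jz (jl x.g P.2)).im := rfl
  rw [h, jz_jl]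
  rfl

theorem jJ_eq_exp (x : JA) (P : JE) : jJ x P =
    Complex.exp (Complex.I * ((jphiL x P + jc / 2 * om (jw x.v) (jz x.v) : ℝ) : ℂ)) := by
  rw [jphiL_apply, jJ]

theorem contDiff_jJ (x : JA) : ContDiff ℝ ∞ (jJ x) := by
  have h : jJ x = fun P => Complex.exp (Complex.I *
      (Complex.ofRealCLM (jphiL x P + jc / 2 * om (jw x.v) (jz x.v)))) := by
    funext P
    rw [jJ_eq_exp]
    rfl
  rw [h]
  exact (contDiff_const.mul (Complex.ofRealCLM.contDiff.comp
    ((jphiL x).contDiff.add contDiff_const))).cexp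

theorem fderiv_jJ (x : JA) (P U : JE) : fderiv ℝ (jJ x) P U =
    Complex.I * jJ x P * ((jaL P U - jaL (jact x P) (jactL x U) : ℝ) : ℂ) := by
  have h : jJ x = fun P => Complex.exp (Complex.I *
      (Complex.ofRealCLM (jphiL x P + jc / 2 * om (jw x.v) (jz x.v)))) := by
    funext P
    rw [jJ_eq_exp]
    rfl
  have h1 : HasFDerivAt (fun P : JE => jphiL x P + jc / 2 * om (jw x.v) (jz x.v))
      (jphiL x) P := (jphiL x).hasFDerivAt.add_const _
  have h2 : HasFDerivAt (fun P : JE => Complex.ofRealCLM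
      (jphiL x P + jc / 2 * om (jw x.v) (jz x.v))) (Complex.ofRealCLM ∘L jphiL x) P :=
    Complex.ofRealCLM.hasFDerivAt.comp P h1
  have h3 := (h2.const_mul Complex.I).cexp
  have h4 : fderiv ℝ (jJ x) P U = jJ x P * (Complex.I * ((jphiL x U : ℝ) : ℂ)) := by
    have h5 : HasFDerivAt (jJ x) (Complex.exp (Complex.I * Complex.ofRealCLM
      (jphiL x P + jc / 2 * om (jw x.v) (jz x.v))) •
        (Complex.I • (Complex.ofRealCLM ∘L jphiL x))) P := by
      have h6 := h3
      rw [← h] at h6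
      exact h6
    rw [h5.fderiv, jJ_eq_exp]
    rfl
  have h5 : jphiL x U = jaL P U - jaL (jact x P) (jactL x U) := by
    have e1 : (jact x P).2 = jl x.g P.2 + x.v := rfl
    have e2 : (jactL x U).2 = jl x.g U.2 := rfl
    rw [jphiL_apply, jaL_apply, jaL_apply, e1, e2, map_add, jw_jl, jz_jl, om_add_left, om_hvact]
    ring
  rw [h4, h5]
  ring

/-- the line bundle -/
noncomputable def jL : ULine jM where
  J := fun l => jJ (jel l)
  smooth_J := fun l => (contDiff_jJ (jel l)).contDiffOn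
  norm_J := fun l x _ => norm_jJ (jel l) x
  J_add := fun l l' x _ => jJ_mul (jel l) (jel l') (Additive.toMul l : LJ).2
    (Additive.toMul l' : LJ).2 x
  a := fun P => jaL P
  smooth_a := jaL.contDiff.contDiffOn
  a_compat := fun l x _ u => by
    have h : jM.act l = jact (jel l) := rfl
    rw [h, fderiv_jact]
    exact fderiv_jJ (jel l) x u

theorem dform_jL (P U W : JE) : dform jL.a P U W = -jc * jom U.2 W.2 := by
  have h : jL.a = fun P => jaL P := rfl
  rw [dform, h, jaL.fderiv, jaL_apply, jaL_apply, jom]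
  ring

end Pool.Agent.HAF3
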