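import Pool.Agent.HAF3.JDefs

/-!
# Module JMAN: the manifold

`U = hU × (ℂ × ℂ)` with the action `jact (jel l)` (`hact` on the first factor, the affine map
`X ↦ jl g X + v` on the second one).

* `free`: the first factor gives `g = 1` (`hym_free`), then `v = 0`.
* `proper`: by `hym_proper` the set of the possible `g` is finite (use `gel`,
  `Additive.ofMul ⟨x.g, _⟩ : Lam`); for fixed `g` and `Z` in the unit ball around `P.2`, the vector
  `v = Z' - jl g Z` with `Z'` in the unit ball around `Q.2` is bounded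
  (`‖jl g Z‖ ≤ ‖jlL g‖ (‖P.2‖ + 1)`), and only finitely many elements of `LL` are bounded
  (`finite_LL`).
* `finite_LL`: `normSq (eis x y) = x ^ 2 - x y + y ^ 2 ≥ (3/4) max (x ^ 2, y ^ 2)`, see `finite_LG`.
-/

namespace Pool.Agent.HAF3

open Filter Topology MeasureTheory
open scoped ContDiff ComplexConjugate
open Pool.Agent.HaefligerClasses (QuotientManifold IsForm HaefligerStructure curvature
  torusElement)
open Pool.Agent.HAF2

theorem finite_LL (C : ℝ) : {X : ℂ × ℂ | X ∈ LL ∧ ‖X‖ ≤ C}.Finite := by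
  obtain ⟨N, hN⟩ := exists_nat_ge (4 / 3 * C ^ 2)
  have hfin : ((Set.Icc (-(N : ℤ)) N ×ˢ Set.Icc (-(N : ℤ)) N) ×ˢ
      (Set.Icc (-(N : ℤ)) N ×ˢ Set.Icc (-(N : ℤ)) N)).Finite :=
    ((Set.finite_Icc _ _).prod (Set.finite_Icc _ _)).prod
      ((Set.finite_Icc _ _).prod (Set.finite_Icc _ _))
  refine (hfin.image (fun t : (ℤ × ℤ) × (ℤ × ℤ) =>
      (eis t.1.1 t.1.2, (Real.sqrt 6 : ℂ) * eis t.2.1 t.2.2))).subset ?_
  rintro X ⟨⟨⟨x, y, h1⟩, p, q, h2⟩, hC⟩
  have hC1 : ‖X.1‖ ≤ C := (norm_fst_le X).trans hC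
  have hC2 : ‖X.2‖ ≤ C := (norm_snd_le X).trans hC
  have hs1 : Complex.normSq X.1 ≤ C ^ 2 := by
    rw [Complex.normSq_eq_norm_sq]
    exact pow_le_pow_left₀ (norm_nonneg _) hC1 2
  have hs2 : Complex.normSq X.2 ≤ C ^ 2 := by
    rw [Complex.normSq_eq_norm_sq]
    exact pow_le_pow_left₀ (norm_nonneg _) hC2 2
  rw [h1, normSq_eis] at hs1
  rw [h2, Complex.normSq_mul, Complex.normSq_ofReal, Real.mul_self_sqrt (by norm_num),
    normSq_eis] at hs2
  push_cast at hs1 hs2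
  refine ⟨((x, y), (p, q)), ⟨⟨?_, ?_⟩, ?_, ?_⟩, ?_⟩
  · exact int_mem_of_sq_le x N (by nlinarith [sq_nonneg ((x : ℝ) - 2 * y)])
  · exact int_mem_of_sq_le y N (by nlinarith [sq_nonneg ((y : ℝ) - 2 * x)])
  · exact int_mem_of_sq_le p N (by nlinarith [sq_nonneg ((p : ℝ) - 2 * q), sq_nonneg (p : ℝ)])
  · exact int_mem_of_sq_le q N (by nlinarith [sq_nonneg ((q : ℝ) - 2 * p), sq_nonneg (q : ℝ)])
  · exact Prod.ext h1.symm h2.symm

theorem jact_proper (P Q : JE) (hP : P.1 ∈ hU) : ∃ V ∈ 𝓝 P, ∃ W ∈ 𝓝 Q,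
    {l : JLam | ∃ z ∈ V ∩ (hU ×ˢ Set.univ), jact (jel l) z ∈ W}.Finite := by
  obtain ⟨V, hV, W, hW, hfin⟩ := hym_proper P.1 Q.1 hP
  refine ⟨V ×ˢ Metric.ball P.2 1, prod_mem_nhds hV (Metric.ball_mem_nhds _ one_pos),
    W ×ˢ Metric.ball Q.2 1, prod_mem_nhds hW (Metric.ball_mem_nhds _ one_pos), ?_⟩
  have hG : (gel '' {l : Lam | ∃ z ∈ V ∩ hU, hact (gel l) z ∈ W}).Finite := hfin.image _
  have hS : (⋃ g ∈ gel '' {l : Lam | ∃ z ∈ V ∩ hU, hact (gel l) z ∈ W},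
      (fun v => (⟨g, v⟩ : JA)) ''
        {X : ℂ × ℂ | X ∈ LL ∧ ‖X‖ ≤ (‖Q.2‖ + 1) + ‖jlL g‖ * (‖P.2‖ + 1)}).Finite :=
    hG.biUnion (fun g _ => (finite_LL _).image _)
  refine Set.Finite.of_finite_image (f := jel) (hS.subset ?_) jel_injective.injOn
  rintro _ ⟨l, ⟨z, ⟨⟨hz1, hz2⟩, hz3, -⟩, hz4, hz5⟩, rfl⟩
  simp only [Set.mem_iUnion]
  refine ⟨(jel l).g, ⟨Additive.ofMul ⟨(jel l).g, jel_g_mem l⟩, ⟨z.1, ⟨hz1, hz3⟩, hz4⟩, rfl⟩,
    (jel l).v, ⟨jel_v_mem l, ?_⟩, rfl⟩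
  have e1 : ‖z.2‖ ≤ ‖P.2‖ + 1 := by
    have h1 : ‖z.2 - P.2‖ < 1 := by
      rw [← dist_eq_norm]
      exact Metric.mem_ball.1 hz2
    have h2 := norm_add_le (z.2 - P.2) P.2
    rw [sub_add_cancel] at h2
    linarith
  have e2 : ‖jl (jel l).g z.2 + (jel l).v‖ ≤ ‖Q.2‖ + 1 := by
    have h1 : ‖(jl (jel l).g z.2 + (jel l).v) - Q.2‖ < 1 := by
      rw [← dist_eq_norm]
      exact Metric.mem_ball.1 hz5
    have h2 := norm_add_le ((jl (jel l).g z.2 + (jel l).v) - Q.2) Q.2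
    rw [sub_add_cancel] at h2
    linarith
  have e3 : ‖jl (jel l).g z.2‖ ≤ ‖jlL (jel l).g‖ * (‖P.2‖ + 1) :=
    ((jlL (jel l).g).le_opNorm z.2).trans (mul_le_mul_of_nonneg_left e1 (norm_nonneg _))
  have e4 := norm_sub_le (jl (jel l).g z.2 + (jel l).v) (jl (jel l).g z.2)
  rw [add_sub_cancel_left] at e4
  linarith

/-- the manifold -/
noncomputable def jM : QuotientManifold JE JLam where
  U := hU ×ˢ Set.univ
  isOpen_U := isOpen_hU.prod isOpen_univ
  act := fun l => jact (jel l)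
  smooth_act := fun l => by
    have h : jact (jel l) = fun P => jactL (jel l) P + ((0 : ℝ × ℂ), (jel l).v) := by
      funext Y
      refine Prod.ext ?_ rfl
      show hact (jel l).g Y.1 = hact (jel l).g Y.1 + 0
      rw [add_zero]
    rw [h]
    exact ((jactL (jel l)).contDiff.add contDiff_const).contDiffOn
  mapsTo := fun l x hx => ⟨hact_mem _ _ hx.1, Set.mem_univ _⟩
  act_zero := fun x _ => by
    rw [jel_zero]
    refine Prod.ext ?_ ?_
    · show hact (1 : SU11) x.1 = x.1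
      rw [hact_one]
    · show jl (1 : SU11) x.2 + 0 = x.2
      rw [jl_one, add_zero]
  act_add := fun l l' x _ => by
    rw [jel_add]
    refine Prod.ext ?_ ?_
    · show hact ((jel l).g * (jel l').g) x.1 = hact (jel l).g (hact (jel l').g x.1)
      rw [hact_mul]
    · show jl ((jel l).g * (jel l').g) x.2 + (jl (jel l).g (jel l').v + (jel l).v) =
        jl (jel l).g (jl (jel l').g x.2 + (jel l').v) + (jel l).v
      rw [jl_mul, jl_add, add_assoc]
  free := fun l x hx h => by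
    have h1 : hact (jel l).g x.1 = x.1 := congrArg Prod.fst h
    have h2 : jl (jel l).g x.2 + (jel l).v = x.2 := congrArg Prod.snd h
    have h3 := hym_free (jel l).g (jel_g_mem l) x.1 hx.1 h1
    rw [h3, jl_one] at h2
    have h4 : (jel l).v = 0 := by
      have h5 : x.2 + (jel l).v = x.2 + 0 := by rw [h2, add_zero]
      exact add_left_cancel h5
    apply jel_injective
    rw [jel_zero]
    exact JA.ext h3 h4
  proper := fun x hx y _ => jact_proper x y hx.1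

theorem mem_jM (P : JE) : P ∈ jM.U ↔ P.1 ∈ hU :=
  ⟨fun h => h.1, fun h => ⟨h, Set.mem_univ _⟩⟩

end Pool.Agent.HAF3
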