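import Pool.Agent.HAF3.JMan

/-!
# Module TINT: integrals of periodic functions over the torus

`tcube` is a linear isomorphism `ℝ⁴ → ℂ × ℂ` which maps `ℤ⁴` onto `LL`, so the matrix of
`tcube⁻¹ ∘ jl g ∘ tcube` is in `SL₄(ℤ)` for `g ∈ LG` (`det jl g = 1`, the inverse is that of `g⁻¹`).
`f ∘ tcube` is `ℤ⁴`-periodic. The cube is (up to the boundary, which has measure zero) the
fundamental domain `ZSpan.fundamentalDomain b` of the standard basis `b = Pi.basisFun ℝ (Fin 4)`; its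
image under the matrix is another fundamental domain of the same lattice
(`IsAddFundamentalDomain.setIntegral_eq`), and the matrix preserves the volume
(`MeasureTheory.integral_image_eq_integral_abs_det_fderiv_smul` or
`Real.map_linearMap_volume_pi_eq_smul_volume_pi`).
-/

namespace Pool.Agent.HAF3

open Filter Topology MeasureTheory
open scoped ContDiff ComplexConjugate
open Pool.Agent.HAF2

theorem tcube_fst (η : Fin 4 → ℝ) :
    (tcube η).1 = (η 0 : ℂ) * eis 1 0 + (η 1 : ℂ) * eis 0 1 := by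
  unfold tcube
  rw [Fin.sum_univ_four]
  simp [tv, Complex.real_smul]

theorem tcube_snd (η : Fin 4 → ℝ) :
    (tcube η).2 = (Real.sqrt 6 : ℂ) * ((η 2 : ℂ) * eis 1 0 + (η 3 : ℂ) * eis 0 1) := by
  unfold tcube
  rw [Fin.sum_univ_four]
  simp [tv, Complex.real_smul]
  ring

theorem eis_comb_re (s t : ℝ) : ((s : ℂ) * eis 1 0 + (t : ℂ) * eis 0 1).re = s - t / 2 := by
  simp only [Complex.add_re, Complex.mul_re, Complex.ofReal_re, Complex.ofReal_im, eis_re]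
  push_cast
  ring

theorem eis_comb_im (s t : ℝ) : ((s : ℂ) * eis 1 0 + (t : ℂ) * eis 0 1).im =
    t * (Real.sqrt 3 / 2) := by
  simp only [Complex.add_im, Complex.mul_im, Complex.ofReal_re, Complex.ofReal_im, eis_im]
  push_cast
  ring

theorem eis_comb_inj (s t s' t' : ℝ)
    (h : (s : ℂ) * eis 1 0 + (t : ℂ) * eis 0 1 = (s' : ℂ) * eis 1 0 + (t' : ℂ) * eis 0 1) :
    s = s' ∧ t = t' := by
  have h1 := congrArg Complex.re h
  have h2 := congrArg Complex.im h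
  rw [eis_comb_re, eis_comb_re] at h1
  rw [eis_comb_im, eis_comb_im] at h2
  have h3 : (0 : ℝ) < Real.sqrt 3 / 2 := by positivity
  have h4 : t = t' := mul_right_cancel₀ h3.ne' h2
  subst h4
  exact ⟨by linarith, rfl⟩

theorem eis_eq_comb (p q : ℤ) : eis p q = ((p : ℝ) : ℂ) * eis 1 0 + ((q : ℝ) : ℂ) * eis 0 1 := by
  apply Complex.ext
  · rw [eis_comb_re, eis_re]
  · rw [eis_comb_im, eis_im]

theorem sqrt_six_ne : (Real.sqrt 6 : ℂ) ≠ 0 := by
  have : (0 : ℝ) < Real.sqrt 6 := by positivity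
  exact_mod_cast this.ne'

/-- `tcube` as a linear map -/
noncomputable def tcubeL : (Fin 4 → ℝ) →ₗ[ℝ] (ℂ × ℂ) where
  toFun := tcube
  map_add' x y := by
    simp only [tcube, Pi.add_apply, add_smul, Finset.sum_add_distrib]
  map_smul' t x := by
    simp only [tcube, Pi.smul_apply, smul_eq_mul, mul_smul, Finset.smul_sum, RingHom.id_apply]

theorem tcubeL_injective : Function.Injective tcubeL := by
  intro η η' h
  have h1 : (tcube η).1 = (tcube η').1 := congrArg Prod.fst h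
  have h2 : (tcube η).2 = (tcube η').2 := congrArg Prod.snd h
  rw [tcube_fst, tcube_fst] at h1
  rw [tcube_snd, tcube_snd] at h2
  have h3 := mul_left_cancel₀ sqrt_six_ne h2
  obtain ⟨e0, e1⟩ := eis_comb_inj _ _ _ _ h1
  obtain ⟨e2, e3⟩ := eis_comb_inj _ _ _ _ h3
  funext i
  fin_cases i
  · exact e0
  · exact e1
  · exact e2
  · exact e3

/-- `tcube` as a linear equivalence -/
noncomputable def tcubeE : (Fin 4 → ℝ) ≃ₗ[ℝ] (ℂ × ℂ) :=
  LinearMap.linearEquivOfInjective tcubeL tcubeL_injective (by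
    rw [Module.finrank_prod, Complex.finrank_real_complex]
    simp)

theorem tcubeE_apply (η : Fin 4 → ℝ) : tcubeE η = tcube η := rfl

/-- `tcube` is a linear isomorphism -/
theorem exists_tcube_equiv : ∃ e : (Fin 4 → ℝ) ≃L[ℝ] (ℂ × ℂ), ∀ η, e η = tcube η :=
  ⟨tcubeE.toContinuousLinearEquiv, fun _ => rfl⟩

/-- the image of the integer vectors is the lattice -/
theorem tcube_mem_LL (η : Fin 4 → ℝ) : tcube η ∈ LL ↔ ∃ n : Fin 4 → ℤ, ∀ i, η i = n i := by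
  rw [mem_LL, tcube_fst, tcube_snd]
  constructor
  · rintro ⟨⟨x, y, h1⟩, p, q, h2⟩
    rw [eis_eq_comb x y] at h1
    have h3 := mul_left_cancel₀ sqrt_six_ne h2
    rw [eis_eq_comb p q] at h3
    obtain ⟨e0, e1⟩ := eis_comb_inj _ _ _ _ h1
    obtain ⟨e2, e3⟩ := eis_comb_inj _ _ _ _ h3
    refine ⟨![x, y, p, q], fun i => ?_⟩
    fin_cases i
    · exact e0
    · exact e1
    · exact e2
    · exact e3
  · rintro ⟨n, hn⟩
    refine ⟨⟨n 0, n 1, ?_⟩, n 2, n 3, ?_⟩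
    · rw [hn 0, hn 1, eis_eq_comb (n 0) (n 1)]
    · rw [hn 2, hn 3, eis_eq_comb (n 2) (n 3)]

/-- real coordinates -/
noncomputable def cooL : (Fin 4 → ℝ) ≃ₗ[ℝ] (ℂ × ℂ) where
  toFun η := (⟨η 0, η 1⟩, ⟨η 2, η 3⟩)
  map_add' x y := rfl
  map_smul' t x := by
    refine Prod.ext ?_ ?_ <;> apply Complex.ext <;> simp
  invFun X := ![X.1.re, X.1.im, X.2.re, X.2.im]
  left_inv η := by
    funext i
    fin_cases i <;> rfl
  right_inv X := rfl

theorem cooL_apply (η : Fin 4 → ℝ) : cooL η = (⟨η 0, η 1⟩, ⟨η 2, η 3⟩) := rfl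

theorem cooL_symm_apply (X : ℂ × ℂ) : cooL.symm X = ![X.1.re, X.1.im, X.2.re, X.2.im] := rfl

theorem det_four (a b c d : ℝ) : (!![a, -b, c, d; b, a, d, -c; c, d, a, -b; d, -c, b, a] :
    Matrix (Fin 4) (Fin 4) ℝ).det = (a * a + b * b - (c * c + d * d)) ^ 2 := by
  simp only [Matrix.det_succ_row_zero, Fin.sum_univ_succ, Fin.succAbove, Matrix.submatrix_apply,
    Matrix.of_apply, Matrix.cons_val', Matrix.cons_val_zero, Matrix.cons_val_succ,
    Matrix.det_unique]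
  simp
  ring

theorem det_jlL (g : SU11) : (jlL g).det = 1 := by
  have h0 : (jlL g).det = LinearMap.det ((jlL g : (ℂ × ℂ) →L[ℝ] (ℂ × ℂ)) : (ℂ × ℂ) →ₗ[ℝ] (ℂ × ℂ)) :=
    rfl
  rw [h0, ← LinearMap.det_conj _ cooL.symm, ← LinearMap.det_toMatrix']
  have h := g.norm_eq
  simp only [Complex.normSq_apply] at h
  have hM : LinearMap.toMatrix' ((cooL.symm : (ℂ × ℂ) →ₗ[ℝ] (Fin 4 → ℝ)) ∘ₗ
      ((jlL g : (ℂ × ℂ) →L[ℝ] (ℂ × ℂ)) : (ℂ × ℂ) →ₗ[ℝ] (ℂ × ℂ)) ∘ₗ
      (cooL.symm.symm : (Fin 4 → ℝ) →ₗ[ℝ] (ℂ × ℂ))) =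
      !![g.a.re, -g.a.im, g.b.re, g.b.im;
         g.a.im, g.a.re, g.b.im, -g.b.re;
         g.b.re, g.b.im, g.a.re, -g.a.im;
         g.b.im, -g.b.re, g.a.im, g.a.re] := by
    ext i j
    rw [LinearMap.toMatrix'_apply]
    have e : ((cooL.symm : (ℂ × ℂ) →ₗ[ℝ] (Fin 4 → ℝ)) ∘ₗ
      ((jlL g : (ℂ × ℂ) →L[ℝ] (ℂ × ℂ)) : (ℂ × ℂ) →ₗ[ℝ] (ℂ × ℂ)) ∘ₗ
      (cooL.symm.symm : (Fin 4 → ℝ) →ₗ[ℝ] (ℂ × ℂ))) (Pi.single j 1) =
      cooL.symm (jl g (cooL (Pi.single j 1))) := rfl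
    rw [e, cooL_symm_apply, cooL_apply]
    fin_cases i <;> fin_cases j <;> simp [jl]
  rw [hM, det_four, h]
  norm_num

/-- the matrix of `jl g` in the coordinates of the lattice -/
noncomputable def tA (g : SU11) : (Fin 4 → ℝ) →ₗ[ℝ] (Fin 4 → ℝ) :=
  (tcubeE.symm : (ℂ × ℂ) →ₗ[ℝ] (Fin 4 → ℝ)) ∘ₗ
    ((jlL g : (ℂ × ℂ) →L[ℝ] (ℂ × ℂ)) : (ℂ × ℂ) →ₗ[ℝ] (ℂ × ℂ)) ∘ₗ
    (tcubeE.symm.symm : (Fin 4 → ℝ) →ₗ[ℝ] (ℂ × ℂ))

theorem tA_apply (g : SU11) (η : Fin 4 → ℝ) : tA g η = tcubeE.symm (jl g (tcube η)) := rfl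

theorem tcube_tA (g : SU11) (η : Fin 4 → ℝ) : tcube (tA g η) = jl g (tcube η) := by
  rw [tA_apply, ← tcubeE_apply, LinearEquiv.apply_symm_apply]

theorem tA_det (g : SU11) : LinearMap.det (tA g) = 1 := by
  unfold tA
  rw [LinearMap.det_conj]
  exact det_jlL g

theorem tA_tA_inv (g : SU11) (η : Fin 4 → ℝ) : tA g (tA g⁻¹ η) = η := by
  rw [tA_apply, tcube_tA, ← jl_mul, mul_inv_cancel, jl_one, ← tcubeE_apply,
    LinearEquiv.symm_apply_apply]

theorem tA_inv_tA (g : SU11) (η : Fin 4 → ℝ) : tA g⁻¹ (tA g η) = η := by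
  rw [tA_apply, tcube_tA, ← jl_mul, inv_mul_cancel, jl_one, ← tcubeE_apply,
    LinearEquiv.symm_apply_apply]

/-- the equivalence -/
noncomputable def tAE (g : SU11) : (Fin 4 → ℝ) ≃ₗ[ℝ] (Fin 4 → ℝ) :=
  { tA g with
    invFun := tA g⁻¹
    left_inv := tA_inv_tA g
    right_inv := tA_tA_inv g }

theorem tAE_apply (g : SU11) (η : Fin 4 → ℝ) : tAE g η = tA g η := rfl

theorem mem_span_basisFun (η : Fin 4 → ℝ) :
    η ∈ Submodule.span ℤ (Set.range (Pi.basisFun ℝ (Fin 4))) ↔ tcube η ∈ LL := by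
  rw [Module.Basis.mem_span_iff_repr_mem, tcube_mem_LL]
  constructor
  · intro h
    choose n hn using h
    exact ⟨n, fun i => by rw [← Pi.basisFun_repr ℝ (Fin 4) η i, ← hn i]; rfl⟩
  · rintro ⟨n, hn⟩ i
    exact ⟨n i, by rw [Pi.basisFun_repr, hn i]; rfl⟩

theorem span_map_tAE (g : SU11) (hg : g ∈ LG) :
    Submodule.span ℤ (Set.range ((Pi.basisFun ℝ (Fin 4)).map (tAE g))) =
      Submodule.span ℤ (Set.range (Pi.basisFun ℝ (Fin 4))) := by
  rw [← ZSpan.map]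
  ext η
  rw [Submodule.mem_map]
  constructor
  · rintro ⟨ζ, hζ, rfl⟩
    rw [mem_span_basisFun] at hζ ⊢
    show tcube (tA g ζ) ∈ LL
    rw [tcube_tA]
    exact jl_mem_LL g hg _ hζ
  · intro hη
    refine ⟨tA g⁻¹ η, ?_, tA_tA_inv g η⟩
    rw [mem_span_basisFun] at hη ⊢
    rw [tcube_tA]
    exact jl_mem_LL g⁻¹ (LG.inv_mem hg) _ hη

theorem tA_measurePreserving (g : SU11) : MeasurePreserving (tA g) volume volume := by
  refine ⟨(LinearMap.continuous_of_finiteDimensional (tA g)).measurable, ?_⟩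
  rw [Real.map_linearMap_volume_pi_eq_smul_volume_pi (by rw [tA_det]; exact one_ne_zero), tA_det]
  simp

theorem tA_measurableEmbedding (g : SU11) : MeasurableEmbedding (tA g) :=
  ((tAE g).toContinuousLinearEquiv.toHomeomorph).measurableEmbedding

theorem integral_tcube_jl (g : SU11) (hg : g ∈ LG) (f : ℂ × ℂ → ℝ)
    (hf : Continuous f) (hp : ∀ v ∈ LL, ∀ X, f (X + v) = f X) :
    ∫ η in Set.Icc (0 : Fin 4 → ℝ) 1, f (jl g (tcube η)) =
      ∫ η in Set.Icc (0 : Fin 4 → ℝ) 1, f (tcube η) := by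
  have hI : Set.Icc (0 : Fin 4 → ℝ) 1 =ᵐ[volume] ZSpan.fundamentalDomain (Pi.basisFun ℝ (Fin 4)) := by
    rw [ZSpan.fundamentalDomain_pi_basisFun, volume_pi]
    exact Measure.univ_pi_Ico_ae_eq_Icc.symm
  rw [setIntegral_congr_set hI, setIntegral_congr_set hI]
  have h1 : ∫ η in ZSpan.fundamentalDomain (Pi.basisFun ℝ (Fin 4)), f (jl g (tcube η)) =
      ∫ η in ZSpan.fundamentalDomain ((Pi.basisFun ℝ (Fin 4)).map (tAE g)), f (tcube η) := by
    rw [← ZSpan.map_fundamentalDomain]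
    have h2 := (tA_measurePreserving g).setIntegral_image_emb (tA_measurableEmbedding g)
      (fun η => f (tcube η)) (ZSpan.fundamentalDomain (Pi.basisFun ℝ (Fin 4)))
    have h3 : (⇑(tAE g)) = ⇑(tA g) := rfl
    rw [h3, h2]
    refine integral_congr_ae (Eventually.of_forall fun η => ?_)
    show f (jl g (tcube η)) = f (tcube (tA g η))
    rw [tcube_tA]
  rw [h1]
  have hD := ZSpan.isAddFundamentalDomain' ((Pi.basisFun ℝ (Fin 4)).map (tAE g))
    (volume : Measure (Fin 4 → ℝ))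
  rw [span_map_tAE g hg] at hD
  have : Countable (Submodule.span ℤ (Set.range (Pi.basisFun ℝ (Fin 4)))).toAddSubgroup :=
    inferInstanceAs (Countable (Submodule.span ℤ (Set.range (Pi.basisFun ℝ (Fin 4)))))
  refine hD.setIntegral_eq (ZSpan.isAddFundamentalDomain' _ _) ?_
  rintro ⟨v, hv⟩ η
  have hv' : tcube v ∈ LL := (mem_span_basisFun v).1 hv
  show f (tcube (v + η)) = f (tcube η)
  have h4 : tcube (v + η) = tcube η + tcube v := by
    rw [add_comm]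
    exact tcubeL.map_add η v
  rw [h4]
  exact hp _ hv' _

end Pool.Agent.HAF3
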