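import Pool.Agent.HAF3.CprPub
import Pool.Agent.HAF3.HypPub
import Pool.Agent.HAF3.JMan
import Pool.Agent.HAF3.TInt

/-!
# Module JPAIR: the sides of the polygon cancel in pairs, after integration over the torus

Let `X t = Wv (2m+1) + t (Wv (2m+2) - Wv (2m+1))`, `V = Wv (2m+2) - Wv (2m+1)`, `g = sideG m`. By
definition (`cprIns_apply`) `bform β η x (fun _ => w)` is
`β (x, tcube η) (w', tv 0, ..., tv 3)` with `w' = (w, 0)` and `tv i` in the second factor
(`jvec`, `bform_apply`).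
1. Fubini: the integral over `η` of `sideI (bform β η) k` is the integral over `t` of
   `∫ η, bform β η (X t) V` (continuity on the compact cube).
2. invariance under `(g, 0)`: `β (x, Z) (w, tv) = β (hact g x, jl g Z) (hact g w, jl g tv)`, and an
   alternating `4`-form on the real `4`-dimensional space `ℂ × ℂ` satisfies
   `f (jl g ∘ u) = det (jlL g) f u = f u` (`AlternatingMap.eq_smul_basis_det`, `Module.Basis.det_comp`,
   `det_jlL`).
3. `Z ↦ β (hact g x, Z) (hact g V, tv)` is continuous and `LL`-periodic (invariance under `(1, v)`), so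
   `integral_tcube_jl` removes `jl g`.
4. `hact g (X t) = Wv (2m+4) + (1 - t) (Wv (2m+5) - Wv (2m+4))` and
   `hact g V = - (Wv (2m+5) - Wv (2m+4))`; substitute `t → 1 - t` (see `sideI_pair` in
   `HAF2/HypC.lean`).
-/

namespace Pool.Agent.HAF3

open Filter Topology MeasureTheory
open scoped ContDiff ComplexConjugate
open Pool.Agent.HaefligerClasses (QuotientManifold IsForm HaefligerStructure curvature
  torusElement)
open Pool.Agent.HAF2

/-- the one form on the cone obtained by inserting the tangent vectors of the torus -/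
noncomputable def bform (β : JE → JE [⋀^Fin 5]→L[ℝ] ℝ) (η : Fin 4 → ℝ) (x : ℝ × ℂ) :
    (ℝ × ℂ) [⋀^Fin 1]→L[ℝ] ℝ :=
  cprIns (cprS₁ (p := 1) (N₂ := 4) (m := 5) rfl) (ContinuousLinearMap.inl ℝ (ℝ × ℂ) (ℂ × ℂ))
    (fun b => ((0 : ℝ × ℂ), tv b)) (β (x, tcube η))

/-- the five vectors -/
noncomputable def jvec (w : ℝ × ℂ) (u : Fin 4 → ℂ × ℂ) : Fin 5 → JE :=
  Fin.cons (w, 0) (fun b => (0, u b))

theorem bform_apply (β : JE → JE [⋀^Fin 5]→L[ℝ] ℝ) (η : Fin 4 → ℝ) (x w : ℝ × ℂ) :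
    bform β η x (fun _ => w) = β (x, tcube η) (jvec w tv) := by
  unfold bform
  rw [cprIns_apply]
  congr 1
  funext i
  fin_cases i <;> rfl

/-- top forms on the torus directions -/
theorem jvec_jl (f : JE [⋀^Fin 5]→L[ℝ] ℝ) (w : ℝ × ℂ) (g : SU11) (u : Fin 4 → ℂ × ℂ) :
    f (jvec w (fun b => jl g (u b))) = f (jvec w u) := by
  set f' : (ℂ × ℂ) [⋀^Fin 4]→ₗ[ℝ] ℝ :=
    (f.toAlternatingMap.curryLeft (w, (0 : ℂ × ℂ))).compLinearMap
      (LinearMap.inr ℝ (ℝ × ℂ) (ℂ × ℂ)) with hf'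
  have key : ∀ u : Fin 4 → ℂ × ℂ, f' u = f (jvec w u) := fun u => rfl
  rw [← key, ← key]
  let e : Module.Basis (Fin 4) ℝ (ℂ × ℂ) :=
    (Complex.basisOneI.prod Complex.basisOneI).reindex finSumFinEquiv
  rw [f'.eq_smul_basis_det e, AlternatingMap.smul_apply, AlternatingMap.smul_apply]
  congr 1
  have h1 := Module.Basis.det_comp e (jlL g : (ℂ × ℂ) →ₗ[ℝ] (ℂ × ℂ)) u
  have h2 : LinearMap.det (jlL g : (ℂ × ℂ) →ₗ[ℝ] (ℂ × ℂ)) = 1 := det_jlL g
  rw [h2, one_mul] at h1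
  exact h1

/-- the integral over the torus directions -/
noncomputable def jphi (β : JE → JE [⋀^Fin 5]→L[ℝ] ℝ) (x w : ℝ × ℂ) : ℝ :=
  ∫ η in Set.Icc (0 : Fin 4 → ℝ) 1, β (x, tcube η) (jvec w tv)

theorem jphi_fubini (β : JE → JE [⋀^Fin 5]→L[ℝ] ℝ) (hβ : IsForm1 jM β) (k : ℕ) :
    ∫ η in Set.Icc (0 : Fin 4 → ℝ) 1, sideI (bform β η) k =
      ∫ t in Set.Icc (0 : Fin 1 → ℝ) 1,
        jphi β (Wv k + t 0 • (Wv (k + 1) - Wv k)) (Wv (k + 1) - Wv k) := by
  unfold sideI jphi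
  simp only [bform_apply]
  have hcont : ContinuousOn (Function.uncurry fun (η : Fin 4 → ℝ) (t : Fin 1 → ℝ) =>
      β (Wv k + t 0 • (Wv (k + 1) - Wv k), tcube η) (jvec (Wv (k + 1) - Wv k) tv))
      (Set.Icc (0 : Fin 4 → ℝ) 1 ×ˢ Set.Icc (0 : Fin 1 → ℝ) 1) := by
    have h1 : ContinuousOn (fun p : (Fin 4 → ℝ) × (Fin 1 → ℝ) =>
        β (Wv k + p.2 0 • (Wv (k + 1) - Wv k), tcube p.1))
        (Set.Icc (0 : Fin 4 → ℝ) 1 ×ˢ Set.Icc (0 : Fin 1 → ℝ) 1) := by
      refine hβ.1.continuousOn.comp ?_ ?_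
      · have hc := contDiff_tcube.continuous
        fun_prop
      · rintro ⟨η, t⟩ ⟨-, ht⟩
        rw [mem_jM]
        exact side_mem k (t 0) (ht.1 0) (ht.2 0)
    exact ((ContinuousAlternatingMap.apply ℝ JE ℝ
      (jvec (Wv (k + 1) - Wv k) tv)).continuous).comp_continuousOn h1
  have hint := hcont.integrableOn_compact (μ := volume) (isCompact_Icc.prod isCompact_Icc)
  rw [IntegrableOn, Measure.volume_eq_prod, ← Measure.prod_restrict] at hint
  exact integral_integral_swap hint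

theorem jphi_inv (β : JE → JE [⋀^Fin 5]→L[ℝ] ℝ) (hβ : IsForm1 jM β) (g : SU11) (hg : g ∈ LG)
    (x : ℝ × ℂ) (hx : x ∈ hU) (w : ℝ × ℂ) :
    jphi β x w = jphi β (hact g x) (hact g w) := by
  have hgx : hact g x ∈ hU := hact_mem g x hx
  unfold jphi
  rw [← integral_tcube_jl g hg (fun Z => β (hact g x, Z) (jvec (hact g w) tv))]
  · refine setIntegral_congr_fun measurableSet_Icc fun η _ => ?_
    have hX : ((x, tcube η) : JE) ∈ jM.U := (mem_jM _).2 hx
    have hinv := hβ.2 (Additive.ofMul ⟨⟨g, 0⟩, hg, LL.zero_mem⟩) _ hX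
    have hact' : jM.act (Additive.ofMul ⟨⟨g, 0⟩, hg, LL.zero_mem⟩) = jact ⟨g, 0⟩ := rfl
    rw [hact', fderiv_jact] at hinv
    have hinv' := congrArg (fun L => L (jvec w tv)) hinv
    show β (x, tcube η) (jvec w tv) = β (hact g x, jl g (tcube η)) (jvec (hact g w) tv)
    rw [← hinv', ← jvec_jl _ (hact g w) g tv]
    have e1 : jact ⟨g, 0⟩ ((x, tcube η) : JE) = (hact g x, jl g (tcube η)) := by
      show (hact g x, jl g (tcube η) + 0) = _
      rw [add_zero]
    show β (jact ⟨g, 0⟩ (x, tcube η)) (fun i => jactL ⟨g, 0⟩ (jvec w tv i)) = _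
    rw [e1]
    congr 1
    funext i
    refine Fin.cases ?_ (fun b => ?_) i
    · show (hact g w, jl g 0) = (hact g w, 0)
      rw [jl_zero]
    · show (hact g 0, jl g (tv b)) = (0, jl g (tv b))
      rw [← hactL_apply, map_zero]
  · have h1 : ContinuousOn (fun Z : ℂ × ℂ => β (hact g x, Z)) Set.univ := by
      refine hβ.1.continuousOn.comp (by fun_prop) ?_
      rintro Z -
      rw [mem_jM]
      exact hgx
    exact ((ContinuousAlternatingMap.apply ℝ JE ℝ
      (jvec (hact g w) tv)).continuous).comp (continuousOn_univ.1 h1)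
  · intro v hv X
    have hX : ((hact g x, X) : JE) ∈ jM.U := (mem_jM _).2 hgx
    have hinv := hβ.2 (Additive.ofMul ⟨⟨1, v⟩, LG.one_mem, hv⟩) _ hX
    have hact' : jM.act (Additive.ofMul ⟨⟨1, v⟩, LG.one_mem, hv⟩) = jact ⟨1, v⟩ := rfl
    rw [hact', fderiv_jact] at hinv
    have hinv' := congrArg (fun L => L (jvec (hact g w) tv)) hinv
    show β (hact g x, X + v) (jvec (hact g w) tv) = β (hact g x, X) (jvec (hact g w) tv)
    rw [← hinv']
    have e1 : jact ⟨1, v⟩ ((hact g x, X) : JE) = (hact g x, X + v) := by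
      show (hact 1 (hact g x), jl 1 X + v) = _
      rw [hact_one, jl_one]
    show _ = β (jact ⟨1, v⟩ (hact g x, X)) (fun i => jactL ⟨1, v⟩ (jvec (hact g w) tv i))
    rw [e1]
    congr 1
    funext i
    show _ = (hact 1 (jvec (hact g w) tv i).1, jl 1 (jvec (hact g w) tv i).2)
    rw [hact_one, jl_one]

theorem jphi_neg (β : JE → JE [⋀^Fin 5]→L[ℝ] ℝ) (x w : ℝ × ℂ) :
    jphi β x (-w) = -jphi β x w := by
  unfold jphi
  rw [← integral_neg]
  refine setIntegral_congr_fun measurableSet_Icc fun η _ => ?_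
  have h := neg_one_form (bform β η x) w
  have h1 := bform_apply β η x (-w)
  have h2 := bform_apply β η x w
  rw [← h1, ← h2]
  exact h

theorem side_pair (β : JE → JE [⋀^Fin 5]→L[ℝ] ℝ) (hβ : IsForm1 jM β) (m : ℕ) :
    ∫ η in Set.Icc (0 : Fin 4 → ℝ) 1, sideI (bform β η) (2 * m + 1) =
      -∫ η in Set.Icc (0 : Fin 4 → ℝ) 1, sideI (bform β η) (2 * m + 4) := by
  rw [jphi_fubini β hβ, jphi_fubini β hβ]
  have hrev : ∫ t in Set.Icc (0 : Fin 1 → ℝ) 1,
      jphi β (Wv (2 * m + 4) + t 0 • (Wv (2 * m + 4 + 1) - Wv (2 * m + 4)))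
        (Wv (2 * m + 4 + 1) - Wv (2 * m + 4)) = ∫ t in Set.Icc (0 : Fin 1 → ℝ) 1,
      jphi β (Wv (2 * m + 4) + (1 - t 0) • (Wv (2 * m + 5) - Wv (2 * m + 4)))
        (Wv (2 * m + 5) - Wv (2 * m + 4)) := by
    have hmp := (Measure.measurePreserving_sub_left (volume : Measure (Fin 1 → ℝ)) 1)
    have hpre : (fun η : Fin 1 → ℝ => 1 - η) ⁻¹' Set.Icc 0 1 = Set.Icc 0 1 := by
      ext η
      simp only [Set.mem_preimage, Set.mem_Icc, sub_nonneg, sub_le_self_iff]
      tauto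
    have h := hmp.setIntegral_preimage_emb
      (MeasurableEquiv.subLeft (1 : Fin 1 → ℝ)).measurableEmbedding
      (fun η : Fin 1 → ℝ => jphi β (Wv (2 * m + 4) + η 0 • (Wv (2 * m + 5) - Wv (2 * m + 4)))
        (Wv (2 * m + 5) - Wv (2 * m + 4))) (Set.Icc 0 1)
    rw [hpre] at h
    exact h.symm
  rw [hrev, ← integral_neg]
  refine setIntegral_congr_fun measurableSet_Icc fun t ht => ?_
  have h0 := ht.1 0
  have h1 := ht.2 0
  simp only [Pi.zero_apply, Pi.one_apply] at h0 h1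
  have hX := side_mem (2 * m + 1) (t 0) h0 h1
  have hinv := jphi_inv β hβ (sideG m) (sideG_mem m) _ hX (Wv (2 * m + 2) - Wv (2 * m + 1))
  have hl : ∀ X Y : ℝ × ℂ, ∀ t : ℝ, hact (sideG m) (X + t • (Y - X)) =
      hact (sideG m) X + t • (hact (sideG m) Y - hact (sideG m) X) := by
    intro X Y t
    simp only [← hactL_apply, map_add, map_smul, map_sub]
  have hv : hact (sideG m) (Wv (2 * m + 2) - Wv (2 * m + 1)) =
      -(Wv (2 * m + 5) - Wv (2 * m + 4)) := by
    rw [← hactL_apply, map_sub, hactL_apply, hactL_apply, sideG_odd, sideG_even]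
    abel
  have hp : hact (sideG m) (Wv (2 * m + 1) + t 0 • (Wv (2 * m + 1 + 1) - Wv (2 * m + 1))) =
      Wv (2 * m + 4) + (1 - t 0) • (Wv (2 * m + 5) - Wv (2 * m + 4)) := by
    rw [hl, sideG_odd]
    show _ + t 0 • (hact (sideG m) (Wv (2 * m + 2)) - _) = _
    rw [sideG_even]
    module
  rw [hp, hv, jphi_neg] at hinv
  exact hinv

end Pool.Agent.HAF3
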