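import Pool.Agent.HAF3.TTor
import Pool.Agent.HAF3.JLin

/-!
# Module TPOW: the integral over the torus

The integrand is constant: `pairSum 2` of the matrix `y (-c jom (tv i) (tv j))`, which is
`8 y² c² Pf` with `Pf = E01 E23 - E02 E13 + E03 E12 = 0 - 24 + 6 = -18`, where `E = jom (tv i) (tv j)`:
`E01 = E23 = 0`, `E02 = E13 = -2√6`, `E03 = E12 = √6` (`jom_eq`; up to signs).
-/

namespace Pool.Agent.HAF3

open Filter Topology MeasureTheory
open scoped ContDiff ComplexConjugate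
open Pool.Agent.HAF2

/-- the integral matrix of the form `jom / √6` on the lattice -/
def tpowM (i j : Fin 4) : ℤ :=
  (![![0, 0, -2, 1], ![0, 0, 1, -2], ![2, -1, 0, 0], ![-1, 2, 0, 0]] i) j

theorem tpowM_sum :
    ∑ σ : Equiv.Perm (Fin 4), ((Equiv.Perm.sign σ : ℤ)) *
      ∏ s : Fin 2, tpowM (σ ⟨2 * s.1, by omega⟩) (σ ⟨2 * s.1 + 1, by omega⟩) = -24 := by
  decide +kernel

theorem jom_tv (i j : Fin 4) : jom (tv i) (tv j) = Real.sqrt 6 * (tpowM i j : ℝ) := by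
  have h3 : Real.sqrt 3 * Real.sqrt 3 = 3 := Real.mul_self_sqrt (by norm_num)
  have h36 : Real.sqrt 6 * (Real.sqrt 3 * Real.sqrt 3) = Real.sqrt 6 * 3 := by rw [h3]
  rw [jom_eq]
  fin_cases i <;> fin_cases j <;>
    simp [tv, tpowM, Complex.mul_re, eis_re, eis_im] <;> nlinarith [h3, h36]

theorem pairSum_tpow (t : ℝ) :
    pairSum 2 (rfl : 4 = 2 * 2) (fun i j => t * (tpowM i j : ℝ)) = -24 * t ^ 2 := by
  have h := congrArg (fun z : ℤ => (z : ℝ)) tpowM_sum
  simp only [Int.cast_sum, Int.cast_mul, Int.cast_prod] at h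
  unfold pairSum
  have e : ∀ σ : Equiv.Perm (Fin 4), ((Equiv.Perm.sign σ : ℤ) : ℝ) *
      ∏ s : Fin 2, t * (tpowM (σ ⟨2 * s.1, by omega⟩) (σ ⟨2 * s.1 + 1, by omega⟩) : ℝ) =
      t ^ 2 * (((Equiv.Perm.sign σ : ℤ) : ℝ) *
      ∏ s : Fin 2, (tpowM (σ ⟨2 * s.1, by omega⟩) (σ ⟨2 * s.1 + 1, by omega⟩) : ℝ)) := by
    intro σ
    rw [Finset.prod_mul_distrib, Finset.prod_const, Finset.card_univ, Fintype.card_fin]
    ring
  rw [Finset.sum_congr rfl fun σ _ => e σ, ← Finset.mul_sum, h]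
  push_cast
  ring

theorem tC_power : ∃ C : ℝ, C ≠ 0 ∧ ∀ y : ℝ,
    tC.power 2 rfl (fun _ U W => y * (-jc * jom U W)) = C * y ^ 2 := by
  refine ⟨-24 * (jc * Real.sqrt 6) ^ 2, ?_, ?_⟩
  · have h6 : Real.sqrt 6 ≠ 0 := (Real.sqrt_pos.2 (by norm_num)).ne'
    have hj : jc ≠ 0 := by
      unfold jc
      positivity
    have := pow_ne_zero 2 (mul_ne_zero hj h6)
    exact mul_ne_zero (by norm_num) this
  · intro y
    have key : ∀ ξ : Fin 4 → ℝ, pairSum 2 (rfl : 4 = 2 * 2)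
        (fun i j => y * (-jc * jom (fderiv ℝ tcube ξ (Pi.single i 1))
          (fderiv ℝ tcube ξ (Pi.single j 1)))) =
        -24 * (jc * Real.sqrt 6) ^ 2 * y ^ 2 := by
      intro ξ
      have e : (fun i j => y * (-jc * jom (fderiv ℝ tcube ξ (Pi.single i 1))
          (fderiv ℝ tcube ξ (Pi.single j 1)))) =
          fun i j : Fin 4 => (-(y * jc * Real.sqrt 6)) * (tpowM i j : ℝ) := by
        funext i j
        rw [fderiv_tcube, fderiv_tcube, tcube_single, tcube_single, jom_tv]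
        ring
      rw [e, pairSum_tpow]
      ring
    have hv : (volume (Set.Icc (0 : Fin 4 → ℝ) 1)).toReal = 1 := by
      rw [Real.volume_Icc_pi_toReal (fun i => by simp)]
      simp
    show ∑ k : Unit, ∫ ξ in Set.Icc (0 : Fin 4 → ℝ) 1, pairSum 2 (rfl : 4 = 2 * 2)
        (fun i j => y * (-jc * jom (fderiv ℝ tcube ξ (Pi.single i 1))
          (fderiv ℝ tcube ξ (Pi.single j 1)))) = _
    rw [Finset.univ_unique, Finset.sum_singleton]
    simp only [key]
    rw [setIntegral_const, smul_eq_mul, Measure.real, hv, one_mul]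

end Pool.Agent.HAF3
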