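import Pool.Agent.HAF3.JCyc
import Pool.Agent.HAF3.TPow
import Pool.Agent.HAF2.HypB
import Pool.Agent.HAF2.PowProd

/-!
# Module JPOW: the integral over the cycle

`jC.power 3` has the same cubes as `(prodCyc hypC tC).power 3`, so that `prodCyc_power` applies (with
`n₁ = 1`, `n₂ = 2`, `W₁ P U W = x * dform hconn P U W`, `W₂ _ U W = y * (-jc * jom U W)`; the factor is
`Nat.choose 3 1`), together with `hypC_power` and `tC_power`. Continuity hypothesis: `dform hconn` is
given by `dform_hconn` on `hU` (or use that `hconn` is smooth on `hU`).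
-/

namespace Pool.Agent.HAF3

open Filter Topology MeasureTheory
open scoped ContDiff ComplexConjugate
open Pool.Agent.HAF2

private theorem jpw_fder {E : Type*} [NormedAddCommGroup E] [NormedSpace ℝ E] {N : ℕ}
    (c : (Fin N → ℝ) → E) (hc : ContDiff ℝ ∞ c) (v : Fin N → ℝ) :
    Continuous fun ξ => fderiv ℝ c ξ v :=
  (hc.continuous_fderiv (by simp)).clm_apply continuous_const

private theorem jpw_hyp (k : ℕ) (i j : Fin 2) (x : ℝ) :
    ContinuousOn (fun ξ => x * dform hconn (hCube k ξ) (fderiv ℝ (hCube k) ξ (Pi.single i 1))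
      (fderiv ℝ (hCube k) ξ (Pi.single j 1))) (Set.Icc (0 : Fin 2 → ℝ) 1) := by
  have hc : Continuous (hCube k) := (contDiff_hCube k).continuous
  have hi := jpw_fder (hCube k) (contDiff_hCube k) (Pi.single i 1)
  have hj := jpw_fder (hCube k) (contDiff_hCube k) (Pi.single j 1)
  have h1 : ContinuousOn (fun ξ : Fin 2 → ℝ => hN (hCube k ξ)) (Set.Icc (0 : Fin 2 → ℝ) 1) :=
    contDiffOn_hN.continuousOn.comp hc.continuousOn (fun ξ hξ => hCube_mem k ξ hξ)
  have h2 : ContinuousOn (fun ξ => x * (det3 (hCube k ξ) (fderiv ℝ (hCube k) ξ (Pi.single i 1))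
      (fderiv ℝ (hCube k) ξ (Pi.single j 1)) / (2 * hN (hCube k ξ) ^ 3)))
      (Set.Icc (0 : Fin 2 → ℝ) 1) := by
    refine continuousOn_const.mul (ContinuousOn.div ?_ (continuousOn_const.mul (h1.pow 3)) ?_)
    · refine Continuous.continuousOn ?_
      unfold det3
      have a1 := Complex.continuous_re
      have a2 := Complex.continuous_im
      fun_prop
    · intro ξ hξ
      exact mul_ne_zero two_ne_zero (pow_ne_zero 3 (hN_pos _ (hCube_mem k ξ hξ)).ne')
  refine h2.congr (fun ξ hξ => ?_)
  show x * dform hconn (hCube k ξ) _ _ = _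
  rw [dform_hconn _ (hCube_mem k ξ hξ)]

private theorem jpw_jom {X : Type*} [TopologicalSpace X] {f g : X → ℂ × ℂ} (hf : Continuous f)
    (hg : Continuous g) : Continuous fun x => jom (f x) (g x) := by
  have a1 : Continuous fun x => jw (f x) := jw.continuous.comp hf
  have a2 : Continuous fun x => jz (f x) := jz.continuous.comp hf
  have a3 : Continuous fun x => jw (g x) := jw.continuous.comp hg
  have a4 : Continuous fun x => jz (g x) := jz.continuous.comp hg
  unfold jom om
  fun_prop

private theorem jpw_jom_zero_left (W : ℂ × ℂ) : jom 0 W = 0 := by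
  unfold jom om
  simp only [map_zero, zero_mul, mul_zero, Complex.zero_im, sub_zero]

private theorem jpw_jom_zero_right (W : ℂ × ℂ) : jom W 0 = 0 := by
  unfold jom om
  simp only [map_zero, zero_mul, mul_zero, Complex.zero_im, sub_zero]

theorem jC_power : ∃ C : ℝ, C ≠ 0 ∧ ∀ x y : ℝ,
    jC.power 3 rfl (fun P U W => x * dform hconn P.1 U.1 W.1 + y * (-jc * jom U.2 W.2)) =
      C * x * y ^ 2 := by
  obtain ⟨C₁, hC₁, h₁⟩ := hypC_power
  obtain ⟨C₂, hC₂, h₂⟩ := tC_power
  refine ⟨(Nat.choose (1 + 2) 1 : ℝ) * C₁ * C₂, ?_, fun x y => ?_⟩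
  · refine mul_ne_zero (mul_ne_zero ?_ hC₁.ne') hC₂
    norm_num [Nat.choose]
  have key := prodCyc_power (n₁ := 1) (n₂ := 2) rfl rfl rfl hypC tC
    (fun X u w => x * dform hconn X u w) (fun _ U W => y * (-jc * jom U W))
    (fun X w => ⟨by simp only [dform, map_zero, zero_apply, sub_zero, mul_zero],
      by simp only [dform, map_zero, zero_apply, sub_zero, mul_zero]⟩)
    (fun X w => ⟨by simp only [jpw_jom_zero_left, mul_zero],
      by simp only [jpw_jom_zero_right, mul_zero]⟩)
    (fun k i j => jpw_hyp k.1 i j x)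
    (fun k i j => by
      refine Continuous.continuousOn ?_
      exact continuous_const.mul (continuous_const.mul
        (jpw_jom (jpw_fder _ contDiff_tcube _) (jpw_fder _ contDiff_tcube _))))
  rw [h₁, h₂] at key
  have e : jC.power 3 rfl (fun P U W => x * dform hconn P.1 U.1 W.1 + y * (-jc * jom U.2 W.2)) =
      (prodCyc hypC tC).power (1 + 2) rfl (fun P U W => x * dform hconn P.1 U.1 W.1 +
        y * (-jc * jom U.2 W.2)) := rfl
  rw [e, key]
  ring

end Pool.Agent.HAF3
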